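import Pool.Agent.H849.K3.Poly
import Pool.Graph.R_seed8.Y142.Rel

/-!
# The eigenvalues of Frobenius elements on isotropic subspaces
-/

set_option autoImplicit false

namespace Pool.Agent.H849.K3

open Polynomial Module
open Pool.Agent.Y142 (dualPoly aroots_dualPoly)

variable {ℓ : ℕ} [hℓ : Fact ℓ.Prime]

/-- an integer which is small in the real and in the `ℓ`-adic sense is zero -/
theorem int_eq_zero {m : ℤ} {k n : ℕ} (h1 : |m| ≤ n) (h2 : n < ℓ ^ k)
    (h3 : ‖(m : ℚ_[ℓ])‖ ≤ (ℓ : ℝ) ^ (-(k : ℤ))) : m = 0 := by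
  rw [Padic.norm_int_le_pow_iff_dvd] at h3
  by_contra hm
  have h4 := Int.le_of_dvd (abs_pos.2 hm) ((dvd_abs _ _).2 h3)
  have h5 : ((ℓ ^ k : ℕ) : ℤ) ≤ |m| := by exact_mod_cast h4
  have h6 : (n : ℤ) < ((ℓ ^ k : ℕ) : ℤ) := by exact_mod_cast h2
  linarith

theorem aroots_eq_of_complex {P : ℤ[X]} (hP : P.Monic) {c : ℕ}
    (h : ∀ z ∈ P.aroots ℂ, z = (c : ℂ)) {Ω : Type*} [Field Ω] [CharZero Ω] :
    ∀ z ∈ P.aroots Ω, z = (c : Ω) := by
  have hsplit : P.map (algebraMap ℤ ℂ) = ((P.aroots ℂ).map fun z => X - C z).prod := by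
    rw [aroots_def]
    exact (IsAlgClosed.splits _).eq_prod_roots_of_monic (hP.map _)
  have hrep : P.aroots ℂ = Multiset.replicate (P.aroots ℂ).card (c : ℂ) :=
    Multiset.eq_replicate_card.2 h
  have h1 : P = (X - C (c : ℤ)) ^ (P.aroots ℂ).card := by
    apply Polynomial.map_injective (algebraMap ℤ ℂ) (algebraMap ℤ ℂ).injective_int
    rw [hsplit, Polynomial.map_pow, Polynomial.map_sub, map_X, map_C]
    conv_lhs => rw [hrep]
    rw [Multiset.map_replicate, Multiset.prod_replicate]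
    simp
  intro z hz
  rw [h1, mem_aroots] at hz
  have h2 := hz.2
  rw [map_pow, map_sub, aeval_X, aeval_C] at h2
  by_cases h4 : (P.aroots ℂ).card = 0
  · rw [h4, pow_zero] at h2
    exact absurd h2 one_ne_zero
  · have h5 := (pow_eq_zero_iff h4).1 h2
    rw [sub_eq_zero] at h5
    rw [h5, map_natCast]

/-- **The core.** -/
theorem roots_eq {P : ℤ[X]} {p j : ℕ} (hp : p.Prime) (hj : 0 < j) (hP : P.Monic)
    (weight : ∀ z : ℂ, aeval z P = 0 → ‖z‖ = (p : ℝ) ^ j)
    (hodge : ∀ i : ℕ, 1 ≤ i → i ≤ P.natDegree → (p : ℤ) ^ (i * j - 1) ∣ P.coeff (P.natDegree - i))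
    {Q : (ℚ_[ℓ])[X]} (hQm : Q.Monic)
    (hQ : Q * dualPoly (((p : ℚ_[ℓ]) ^ j) ^ 2) Q ∣ P.map (algebraMap ℤ ℚ_[ℓ])) {N : ℕ} (hN : 0 < N)
    (hprod : (Q.aroots (PadicAlgCl ℓ)).prod ^ N =
      (((p : PadicAlgCl ℓ) ^ j) ^ (Q.aroots (PadicAlgCl ℓ)).card) ^ N)
    {k : ℕ} (hk : 2 ≤ k) (hk2 : 2 * P.natDegree < ℓ ^ k)
    (hnear : ∀ z ∈ P.aroots (PadicAlgCl ℓ), ‖z - 1‖ ≤ (ℓ : ℝ) ^ (-(k : ℤ)))
    (hnearp : ‖(p : PadicAlgCl ℓ) ^ j - 1‖ ≤ (ℓ : ℝ) ^ (-(k : ℤ))) :
    ∀ z ∈ Q.aroots (PadicAlgCl ℓ), z = (p : PadicAlgCl ℓ) ^ j := by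
  classical
  set ε : ℝ := (ℓ : ℝ) ^ (-(k : ℤ)) with hε
  have hℓ1 : (1 : ℝ) < ℓ := by exact_mod_cast hℓ.out.one_lt
  have hε0 : 0 ≤ ε := by positivity
  have hεℓ : ε < (ℓ : ℝ)⁻¹ := by
    rw [hε, ← zpow_neg_one]
    exact zpow_lt_zpow_right₀ hℓ1 (by omega)
  have hε1 : ε < 1 := hεℓ.trans (inv_lt_one_of_one_lt₀ hℓ1)
  -- the case of degree zero
  rcases Nat.eq_zero_or_pos P.natDegree with hn | hn
  · intro z hz
    have h1 : P = 1 := hP.natDegree_eq_zero.1 hn
    have h2 : Q ∣ 1 := by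
      rw [h1, Polynomial.map_one] at hQ
      exact (dvd_mul_right Q _).trans hQ
    have h3 : Q = 1 := hQm.eq_one_of_isUnit (isUnit_of_dvd_one h2)
    rw [h3] at hz
    simp at hz
  obtain ⟨f, hf⟩ := exists_normalized (P := P) (p := p) hj hodge
  have hchar : CharZero (PadicAlgCl ℓ) := charZero_of_injective_algebraMap (algebraMap ℚ_[ℓ] (PadicAlgCl ℓ)).injective
  have hp0 : (p : (PadicAlgCl ℓ)) ≠ 0 := by exact_mod_cast hp.ne_zero
  have hpj : (p : (PadicAlgCl ℓ)) ^ j ≠ 0 := pow_ne_zero _ hp0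
  have hfΩ := normalized_map (Ω := PadicAlgCl ℓ) hp hj hn hP hf
  have hfC := normalized_map (Ω := ℂ) hp hj hn hP hf
  have haΩ := normalized_coeff hn hP hfΩ
  have haC := normalized_coeff hn hP hfC
  set s : Multiset (PadicAlgCl ℓ) := (P.aroots (PadicAlgCl ℓ)).map fun z => z / (p : (PadicAlgCl ℓ)) ^ j with hs
  set sC : Multiset ℂ := (P.aroots ℂ).map fun z => z / (p : ℂ) ^ j with hsC
  set a : ℤ := -f.coeff (P.natDegree - 1) with ha
  have haΩ' : (a : PadicAlgCl ℓ) = p * s.sum := haΩ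
  have hfΩ' : f.map (algebraMap ℤ (PadicAlgCl ℓ)) =
      C (p : PadicAlgCl ℓ) * (s.map fun y => X - C y).prod := hfΩ
  have hPm0 : P ≠ 0 := hP.ne_zero
  have hcardΩ : s.card = P.natDegree := by
    rw [hs, Multiset.card_map, aroots_def,
      ← (IsAlgClosed.splits (P.map (algebraMap ℤ (PadicAlgCl ℓ)))).natDegree_eq_card_roots, hP.natDegree_map]
  have hcardC : sC.card = P.natDegree := by
    rw [hsC, Multiset.card_map, aroots_def,
      ← (IsAlgClosed.splits (P.map (algebraMap ℤ ℂ))).natDegree_eq_card_roots, hP.natDegree_map]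
  have hpR : (0 : ℝ) < (p : ℝ) ^ j := by
    have : (0 : ℝ) < p := by exact_mod_cast hp.pos
    positivity
  have hsC1 : ∀ y ∈ sC, ‖y‖ = 1 := by
    intro y hy
    obtain ⟨z, hz, rfl⟩ := Multiset.mem_map.1 hy
    rw [norm_div, norm_pow, Complex.norm_natCast, weight z ((mem_aroots.1 hz).2), div_self hpR.ne']
  -- the roots of `Q`
  have hQ0 : Q.eval 0 ≠ 0 := by
    intro h0
    have h1 : aeval (0 : ℚ_[ℓ]) P = 0 := by
      obtain ⟨R, hR⟩ := (dvd_mul_right Q _).trans hQ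
      have h2 := congrArg (Polynomial.eval (0 : ℚ_[ℓ])) hR
      rw [eval_mul, h0, zero_mul, eval_map_algebraMap] at h2
      exact h2
    have h2 : P.eval 0 = 0 := by
      have h3 : aeval (0 : ℚ_[ℓ]) P = ((P.eval 0 : ℤ) : ℚ_[ℓ]) := by
        have := aeval_algebraMap_apply ℚ_[ℓ] (0 : ℤ) P
        rw [map_zero, coe_aeval_eq_eval] at this
        exact this
      rw [h3] at h1
      exact_mod_cast h1
    have h3 : aeval (0 : ℂ) P = 0 := by
      have := aeval_algebraMap_apply ℂ (0 : ℤ) P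
      rw [map_zero, coe_aeval_eq_eval, h2, map_zero] at this
      exact this
    have h4 := weight 0 h3
    rw [norm_zero] at h4
    exact absurd h4 hpR.ne
  have hQroots : Q.aroots (PadicAlgCl ℓ) + (Q.aroots (PadicAlgCl ℓ)).map (fun z => ((p : (PadicAlgCl ℓ)) ^ j) ^ 2 / z) ≤ P.aroots (PadicAlgCl ℓ) := by
    have h1 : ((p : ℚ_[ℓ]) ^ j) ^ 2 ≠ 0 := by
      have : (p : ℚ_[ℓ]) ≠ 0 := by exact_mod_cast hp.ne_zero
      positivity
    have h2 := aroots_dualPoly (Ω := PadicAlgCl ℓ) h1 hQm hQ0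
    have h3 : (Q * dualPoly (((p : ℚ_[ℓ]) ^ j) ^ 2) Q).aroots (PadicAlgCl ℓ) =
        Q.aroots (PadicAlgCl ℓ) + (Q.aroots (PadicAlgCl ℓ)).map (fun z => ((p : (PadicAlgCl ℓ)) ^ j) ^ 2 / z) := by
      rw [aroots_mul, h2]
      · congr 1
        refine Multiset.map_congr rfl fun z _ => ?_
        simp only [map_pow, map_natCast]
      · intro h0
        rw [h0] at hQ
        have h4 := zero_dvd_iff.1 hQ
        exact (hP.map (algebraMap ℤ ℚ_[ℓ])).ne_zero h4
    rw [← h3]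
    have h4 : P.aroots (PadicAlgCl ℓ) = (P.map (algebraMap ℤ ℚ_[ℓ])).aroots (PadicAlgCl ℓ) := by
      rw [aroots_def, aroots_def, Polynomial.map_map]
      congr 2
    rw [h4]
    rw [aroots_def, aroots_def]
    apply Polynomial.roots.le_of_dvd ((hP.map _).map _).ne_zero
    exact Polynomial.map_dvd _ hQ
  set T : Multiset (PadicAlgCl ℓ) := (Q.aroots (PadicAlgCl ℓ)).map fun z => z / (p : (PadicAlgCl ℓ)) ^ j with hT
  have hz0 : ∀ z ∈ Q.aroots (PadicAlgCl ℓ), z ≠ 0 := by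
    intro z hz h0
    rw [h0, mem_aroots] at hz
    have h1 : aeval (0 : (PadicAlgCl ℓ)) Q = algebraMap ℚ_[ℓ] (PadicAlgCl ℓ) (Q.eval 0) := by
      have := aeval_algebraMap_apply (PadicAlgCl ℓ) (0 : ℚ_[ℓ]) Q
      rwa [map_zero, coe_aeval_eq_eval] at this
    rw [h1] at hz
    exact hQ0 ((algebraMap ℚ_[ℓ] (PadicAlgCl ℓ)).injective (by rw [hz.2, map_zero]))
  have hTs : T + T.map (fun y => y⁻¹) ≤ s := by
    have h1 := Multiset.map_le_map (f := fun z => z / (p : (PadicAlgCl ℓ)) ^ j) hQroots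
    rw [Multiset.map_add, Multiset.map_map] at h1
    rw [hT, hs, Multiset.map_map]
    convert h1 using 3
    rename_i z hz
    simp only [Function.comp_apply]
    have hzz := hz0 z hz
    field_simp
  have hT0 : (0 : (PadicAlgCl ℓ)) ∉ T := by
    intro h
    obtain ⟨z, hz, hz'⟩ := Multiset.mem_map.1 h
    exact hz0 z hz ((div_eq_zero_iff.1 hz').resolve_right hpj)
  have hTprod : T.prod ^ N = 1 := by
    have key : ∀ t : Multiset (PadicAlgCl ℓ), (t.map fun z => z / (p : (PadicAlgCl ℓ)) ^ j).prod =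
        t.prod / ((p : (PadicAlgCl ℓ)) ^ j) ^ t.card := by
      intro t
      induction t using Multiset.induction_on with
      | empty => simp
      | cons b t ih =>
        rw [Multiset.map_cons, Multiset.prod_cons, ih, Multiset.prod_cons, Multiset.card_cons,
          pow_succ]
        field_simp
    rw [hT, key, div_pow, hprod, div_self (pow_ne_zero _ (pow_ne_zero _ hpj))]
  -- closeness
  have hpnorm : ‖(p : (PadicAlgCl ℓ)) ^ j‖ = 1 := by
    have h1 : (p : (PadicAlgCl ℓ)) ^ j = ((p : (PadicAlgCl ℓ)) ^ j - 1) + 1 := by ring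
    rw [h1]
    have h2 := IsUltrametricDist.norm_add_eq_max_of_norm_ne_norm (x := (p : (PadicAlgCl ℓ)) ^ j - 1) (y := 1)
      (by rw [norm_one]; exact (hnearp.trans_lt hε1).ne)
    rw [h2, norm_one]
    exact max_eq_right (hnearp.trans hε1.le)
  have hsnear : ∀ y ∈ s, ‖y - 1‖ ≤ ε := by
    intro y hy
    obtain ⟨z, hz, rfl⟩ := Multiset.mem_map.1 hy
    have h1 : z / (p : (PadicAlgCl ℓ)) ^ j - 1 = ((z - 1) - ((p : (PadicAlgCl ℓ)) ^ j - 1)) / (p : (PadicAlgCl ℓ)) ^ j := by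
      field_simp
      ring
    rw [h1, norm_div, hpnorm, div_one]
    rw [sub_eq_add_neg]
    refine (IsUltrametricDist.norm_add_le_max _ _).trans (max_le (hnear z hz) ?_)
    rw [norm_neg]
    exact hnearp
  have hTsub : ∀ y ∈ T, y ∈ s := fun y hy =>
    Multiset.mem_of_le ((Multiset.le_add_right _ _).trans hTs) hy
  have hfinish : (∀ y ∈ T, y = 1) → ∀ z ∈ Q.aroots (PadicAlgCl ℓ), z = (p : (PadicAlgCl ℓ)) ^ j := by
    intro h z hz
    have h1 := h _ (Multiset.mem_map_of_mem _ hz)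
    exact (div_eq_one_iff_eq hpj).1 h1
  apply hfinish
  by_cases hpa : (p : ℤ) ∣ a
  · -- the trace is an integer
    obtain ⟨t, ht⟩ := hpa
    have htC : (t : ℂ) = sC.sum := by
      have h1 : (p : ℂ) ≠ 0 := by exact_mod_cast hp.ne_zero
      apply mul_left_cancel₀ h1
      rw [← haC, ht]
      push_cast
      ring
    have htΩ : (t : (PadicAlgCl ℓ)) = s.sum := by
      apply mul_left_cancel₀ hp0
      rw [← haΩ', ht]
      push_cast
      ring
    have hle : ‖(t : ℂ)‖ ≤ P.natDegree := by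
      rw [htC, ← hcardC]
      exact norm_sum_le_card hsC1
    have hnearT : ‖((t - P.natDegree : ℤ) : ℚ_[ℓ])‖ ≤ ε := by
      rw [← norm_intCast_alg]
      push_cast
      rw [htΩ, ← hcardΩ]
      exact sum_near hε0 hsnear
    have ht0 : t - P.natDegree = 0 := by
      refine int_eq_zero (n := 2 * P.natDegree) ?_ hk2 hnearT
      have h1 : |t| ≤ P.natDegree := by
        have h2 : ‖(t : ℂ)‖ = ((|t| : ℤ) : ℝ) := by
          rw [Complex.norm_intCast, Int.cast_abs]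
        rw [h2] at hle
        exact_mod_cast hle
      rw [abs_le] at h1 ⊢
      push_cast
      constructor <;> linarith [h1.1, h1.2]
    have htn : t = P.natDegree := by linarith
    have hC1 : ∀ y ∈ sC, y = 1 := by
      apply (sum_re_le hsC1).2
      rw [← htC, htn, hcardC]
      simp
    have hPC : ∀ z ∈ P.aroots ℂ, z = ((p ^ j : ℕ) : ℂ) := by
      intro z hz
      have h1 := hC1 _ (Multiset.mem_map_of_mem _ hz)
      have h2 : (p : ℂ) ^ j ≠ 0 := pow_ne_zero _ (by exact_mod_cast hp.ne_zero)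
      rw [(div_eq_one_iff_eq h2).1 h1, Nat.cast_pow]
    have hPΩ := aroots_eq_of_complex hP hPC (Ω := PadicAlgCl ℓ)
    intro y hy
    obtain ⟨z, hz, rfl⟩ := Multiset.mem_map.1 (hTsub y hy)
    rw [hPΩ z hz, Nat.cast_pow, div_self hpj]
  · -- the ordinary case
    intro y hy
    have hint := isIntegral_of_isotropic hp hfΩ' haΩ' hpa hT0 hTs hN hTprod y hy
    have hyf : aeval y f = 0 := by
      have h1 := congrArg (Polynomial.eval y) hfΩ'
      rw [eval_map_algebraMap] at h1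
      rw [h1, eval_mul, eval_multiset_prod, Multiset.map_map]
      have h2 : (0 : (PadicAlgCl ℓ)) ∈ s.map (Polynomial.eval y ∘ fun y => X - C y) := by
        refine Multiset.mem_map.2 ⟨y, hTsub y hy, ?_⟩
        simp
      rw [Multiset.prod_eq_zero h2, mul_zero]
    obtain ⟨M, hM, hyM⟩ := exists_pow_eq_one hint hyf (by
      intro z hz
      have h1 := congrArg (Polynomial.eval z) hfC
      rw [eval_map_algebraMap, hz, eval_mul, eval_C, eval_multiset_prod, Multiset.map_map] at h1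
      have h2 : (p : ℂ) ≠ 0 := by exact_mod_cast hp.ne_zero
      have h3 := (mul_eq_zero.1 h1.symm).resolve_left h2
      obtain ⟨w, hw, hw2⟩ := Multiset.mem_map.1 (Multiset.prod_eq_zero_iff.1 h3)
      have h4 : z = w := by
        have : z - w = 0 := by simpa using hw2
        exact sub_eq_zero.1 this
      rw [h4]
      exact hsC1 w hw)
    exact eq_one_of_near hM hyM hε0 hεℓ (hsnear y (hTsub y hy))

end Pool.Agent.H849.K3
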