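import Mathlib

/-!
# Galois representations of K3 type: definitions
-/

set_option autoImplicit false

namespace Pool.Agent.H849.K3

open NumberField Polynomial

/-- The absolute Galois group of a field, with the Krull topology. -/
abbrev AbsGal (K : Type) [Field K] : Type := Gal(AlgebraicClosure K/K)

/-- The absolute Galois group of the rational numbers. -/
abbrev G : Type := AbsGal ℚ

/-- `σ` is an (arithmetic) Frobenius element at the prime number `p`: there is a maximal ideal `Q`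
above `p` of the ring of all algebraic integers with `σ x ≡ x ^ p` modulo `Q` for all `x`. -/
def IsFrobenius (p : ℕ) (σ : G) : Prop :=
  ∃ Q : Ideal (𝓞 (AlgebraicClosure ℚ)), Q.IsMaximal ∧ (p : 𝓞 (AlgebraicClosure ℚ)) ∈ Q ∧
    ∀ x : 𝓞 (AlgebraicClosure ℚ), σ • x - x ^ p ∈ Q

/-- A continuous representation `ρ` of the Galois group `G` of `ℚ` on a vector space `V` over the
`ℓ`-adic numbers with the properties of the cohomology `H^(2j)(X, ℚ_ℓ)`, `j ≥ 1`, of a smooth
projective variety `X` over `ℚ` with Hodge numbers `h^(j+1,j-1) ≤ 1` and `h^(j+a,j-a) = 0` for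
`a > 1`, or of a part of it cut out by algebraic correspondences and stable under duality. -/
structure K3Type (ℓ j : ℕ) [Fact ℓ.Prime] (V : Type) [AddCommGroup V] [Module ℚ_[ℓ] V]
    [FiniteDimensional ℚ_[ℓ] V] where
  /-- the representation -/
  ρ : G →* (V →ₗ[ℚ_[ℓ]] V)
  continuous_ρ : ∀ (φ : V →ₗ[ℚ_[ℓ]] ℚ_[ℓ]) (x : V), Continuous fun g => φ (ρ g x)
  /-- the character of the Tate module `ℚ_ℓ(-j)` -/
  ψ : G →* ℚ_[ℓ]
  continuous_ψ : Continuous ψ
  /-- the polarization -/
  B : LinearMap.BilinForm ℚ_[ℓ] V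
  nondegenerate : B.Nondegenerate
  symm_or_alt : B.IsSymm ∨ B.IsAlt
  similitude : ∀ (g : G) (x y : V), B (ρ g x) (ρ g y) = ψ g ^ 2 * B x y
  /-- a finite set of prime numbers, which contains `ℓ` and the primes of bad reduction -/
  S : Finset ℕ
  /-- the characteristic polynomials of the geometric Frobenius elements -/
  P : ℕ → ℤ[X]
  monic : ∀ p : ℕ, p.Prime → p ∉ S → (P p).Monic
  /-- the eigenvalues have weight `2 j` (Deligne) -/
  weight : ∀ p : ℕ, p.Prime → p ∉ S → ∀ z : ℂ, aeval z (P p) = 0 → ‖z‖ = (p : ℝ) ^ j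
  /-- the Newton polygon lies above the Hodge polygon (Mazur): the coefficient of `X ^ (n - i)` is
  divisible by `p ^ (i j - 1)`, where `n` is the degree and `i ≥ 1` -/
  hodge : ∀ p : ℕ, p.Prime → p ∉ S → ∀ i : ℕ, 1 ≤ i → i ≤ (P p).natDegree →
    (p : ℤ) ^ (i * j - 1) ∣ (P p).coeff ((P p).natDegree - i)
  charpoly : ∀ p : ℕ, p.Prime → p ∉ S → ∀ σ : G, IsFrobenius p σ →
    (ρ σ⁻¹).charpoly = (P p).map (algebraMap ℤ ℚ_[ℓ])
  tateModule : ∀ p : ℕ, p.Prime → p ∉ S → ∀ σ : G, IsFrobenius p σ → ψ σ⁻¹ = (p : ℚ_[ℓ]) ^ j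

namespace K3Type

variable {ℓ j : ℕ} [Fact ℓ.Prime] {V : Type} [AddCommGroup V] [Module ℚ_[ℓ] V]
  [FiniteDimensional ℚ_[ℓ] V]

/-- The subspace `U` is stable under the Galois group. -/
def IsStable (A : K3Type ℓ j V) (U : Submodule ℚ_[ℓ] V) : Prop := ∀ g : G, ∀ x ∈ U, A.ρ g x ∈ U

/-- The representation is semisimple: every stable subspace has a stable complement. -/
def IsSemisimple (A : K3Type ℓ j V) : Prop :=
  ∀ U : Submodule ℚ_[ℓ] V, A.IsStable U → ∃ U' : Submodule ℚ_[ℓ] V, A.IsStable U' ∧ IsCompl U U'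

/-- The Tate classes over number fields: the vectors `x` such that in the twist `V(j)` the vector
`x` is fixed by an open subgroup of the Galois group. -/
def tate (A : K3Type ℓ j V) : Submodule ℚ_[ℓ] V where
  carrier := {x | ∃ U : Subgroup G, IsOpen (U : Set G) ∧ ∀ g ∈ U, A.ρ g x = A.ψ g • x}
  zero_mem' := ⟨⊤, isOpen_univ, fun g _ => by rw [map_zero, smul_zero]⟩
  add_mem' := by
    rintro x y ⟨U, hU, hx⟩ ⟨U', hU', hy⟩
    refine ⟨U ⊓ U', hU.inter hU', fun g hg => ?_⟩
    rw [map_add, hx g hg.1, hy g hg.2, smul_add]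
  smul_mem' := by
    rintro c x ⟨U, hU, hx⟩
    refine ⟨U, hU, fun g hg => ?_⟩
    rw [map_smul, hx g hg, smul_comm]

open Classical in
/-- The number of roots in `ℂ`, counted with multiplicities, of the characteristic polynomial of
the geometric Frobenius at `p` which are of the form `p ^ j ζ` with a root of unity `ζ`. -/
noncomputable def frobTate (A : K3Type ℓ j V) (p : ℕ) : ℕ :=
  (((A.P p).aroots ℂ).filter fun z => ∃ m : ℕ, 0 < m ∧ z ^ m = ((p ^ j : ℕ) : ℂ) ^ m).card

end K3Type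

end Pool.Agent.H849.K3
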