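import Pool.Graph.R_seed8.H914R2.Core0

/-!
# The theorem of Kolchin
-/

set_option autoImplicit false

namespace Pool.Agent.H849.K3

open Module

variable {F : Type*} [Field F] [CharZero F] {G : Type*} [Group G]

theorem trace_sub_one_nilpotent {W : Type*} [AddCommGroup W] [Module F W] [Module.Finite F W]
    {e : Module.End F W} (h : IsNilpotent (e - 1)) : LinearMap.trace F W e = finrank F W := by
  have h1 : LinearMap.trace F W (e - 1) = 0 := (LinearMap.isNilpotent_trace_of_isNilpotent h).eq_zero
  rw [map_sub, LinearMap.trace_one, sub_eq_zero] at h1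
  exact h1

/-- a group of unipotent operators on a nonzero space without proper stable subspaces is trivial -/
theorem kolchin_simple {W : Type*} [AddCommGroup W] [Module F W] [Module.Finite F W]
    (ρ : G →* Module.End F W) (hu : ∀ g, IsNilpotent (ρ g - 1))
    (hs : ∀ M : Submodule F W, (∀ g, M ≤ M.comap (ρ g)) → M ≠ ⊥ → M = ⊤) (u : G) : ρ u = 1 := by
  classical
  -- the ideal
  let A : Submodule F (Module.End F W) := Submodule.span F (Set.range ρ)
  have hAmul : ∀ g : G, ∀ x ∈ A, ρ g * x ∈ A := by
    intro g x hx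
    induction hx using Submodule.span_induction with
    | mem x hx =>
      obtain ⟨h, rfl⟩ := hx
      rw [← map_mul]
      exact Submodule.subset_span ⟨_, rfl⟩
    | zero => rw [mul_zero]; exact A.zero_mem
    | add x y _ _ hx hy => rw [mul_add]; exact A.add_mem hx hy
    | smul c x _ hx => rw [mul_smul_comm]; exact A.smul_mem c hx
  let I : Submodule F (Module.End F W) :=
    { carrier := {x | x ∈ A ∧ ∀ g : G, LinearMap.trace F W (x * ρ g) = 0}
      add_mem' := by
        rintro x y ⟨hx, hx'⟩ ⟨hy, hy'⟩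
        refine ⟨A.add_mem hx hy, fun g => ?_⟩
        rw [add_mul, map_add, hx', hy', add_zero]
      zero_mem' := ⟨A.zero_mem, fun g => by rw [zero_mul, map_zero]⟩
      smul_mem' := by
        rintro c x ⟨hx, hx'⟩
        refine ⟨A.smul_mem c hx, fun g => ?_⟩
        rw [smul_mul_assoc, map_smul, hx', smul_zero] }
  have hI : ∀ x ∈ I, ∀ g : G, ρ g * x ∈ I := by
    rintro x ⟨hx, hx'⟩ g
    refine ⟨hAmul g x hx, fun h => ?_⟩
    rw [mul_assoc, LinearMap.trace_mul_comm, mul_assoc, ← map_mul]
    exact hx' _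
  have hItr : ∀ x ∈ I, ∀ a ∈ A, LinearMap.trace F W (x * a) = 0 := by
    rintro x ⟨hx, hx'⟩ a ha
    induction ha using Submodule.span_induction with
    | mem a ha =>
      obtain ⟨g, rfl⟩ := ha
      exact hx' g
    | zero => rw [mul_zero, map_zero]
    | add a b _ _ ha hb => rw [mul_add, map_add, ha, hb, add_zero]
    | smul c a _ ha => rw [mul_smul_comm, map_smul, ha, smul_zero]
  have hone : (1 : Module.End F W) ∈ A := by
    rw [← map_one ρ]
    exact Submodule.subset_span ⟨_, rfl⟩
  have hAA : ∀ x ∈ A, ∀ y ∈ A, x * y ∈ A := by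
    intro x hx y hy
    induction hx using Submodule.span_induction with
    | mem x hx =>
      obtain ⟨g, rfl⟩ := hx
      exact hAmul g y hy
    | zero => rw [zero_mul]; exact A.zero_mem
    | add x x' _ _ hx hx' => rw [add_mul]; exact A.add_mem hx hx'
    | smul c x _ hx => rw [smul_mul_assoc]; exact A.smul_mem c hx
  have hpow : ∀ x ∈ A, ∀ r : ℕ, x ^ r ∈ A := by
    intro x hx r
    induction r with
    | zero => rw [pow_zero]; exact hone
    | succ r ih => rw [pow_succ]; exact hAA _ ih _ hx
  have hnil : ∀ x ∈ I, IsNilpotent x := by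
    intro x hx
    apply Pool.Agent.H914.isNilpotent_of_trace_pow
    intro r
    rw [pow_succ']
    exact hItr x hx _ (hpow x hx.1 r)
  have hmem : ρ u - 1 ∈ I := by
    refine ⟨A.sub_mem (Submodule.subset_span ⟨u, rfl⟩) hone, fun g => ?_⟩
    rw [sub_mul, one_mul, map_sub, ← map_mul, trace_sub_one_nilpotent (hu _),
      trace_sub_one_nilpotent (hu _), sub_self]
  rw [← sub_eq_zero]
  apply LinearMap.ext
  intro m
  rw [LinearMap.zero_apply]
  by_contra hm
  -- the stable subspace `I m`
  let M : Submodule F W := I.map (LinearMap.applyₗ m : Module.End F W →ₗ[F] W)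
  have hM : ∀ g, M ≤ M.comap (ρ g) := by
    rintro g _ ⟨x, hx, rfl⟩
    exact ⟨ρ g * x, hI x hx g, rfl⟩
  have hMne : M ≠ ⊥ := by
    intro h
    have h1 : (ρ u - 1) m ∈ M := ⟨_, hmem, rfl⟩
    rw [h, Submodule.mem_bot] at h1
    exact hm h1
  have htop := hs M hM hMne
  have h1 : m ∈ M := htop ▸ Submodule.mem_top
  obtain ⟨x, hx, hxm⟩ := h1
  have hxm' : x m = m := hxm
  obtain ⟨k, hk⟩ := hnil x hx
  have h2 : ∀ k : ℕ, (x ^ k) m = m := by
    intro k
    induction k with
    | zero => rw [pow_zero]; rfl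
    | succ k ih => rw [pow_succ, Module.End.mul_apply, hxm', ih]
  have h3 := h2 k
  rw [hk, LinearMap.zero_apply] at h3
  apply hm
  rw [← h3, map_zero]

/-- a nonzero finite dimensional representation has a stable subspace which is minimal among the
nonzero ones -/
theorem exists_minimal {W : Type*} [AddCommGroup W] [Module F W] [Module.Finite F W]
    (P : Submodule F W → Prop) {M₀ : Submodule F W} (h₀ : P M₀) (hne : M₀ ≠ ⊥) :
    ∃ M, P M ∧ M ≠ ⊥ ∧ M ≤ M₀ ∧ ∀ N, P N → N ≠ ⊥ → N ≤ M → N = M := by
  have key : ∀ n : ℕ, ∀ M : Submodule F W, finrank F M = n → P M → M ≠ ⊥ →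
      ∃ M', P M' ∧ M' ≠ ⊥ ∧ M' ≤ M ∧ ∀ N, P N → N ≠ ⊥ → N ≤ M' → N = M' := by
    intro n
    induction n using Nat.strong_induction_on with
    | _ n ih =>
      intro M hM hPM hM0
      by_cases h : ∀ N, P N → N ≠ ⊥ → N ≤ M → N = M
      · exact ⟨M, hPM, hM0, le_rfl, h⟩
      · push Not at h
        obtain ⟨N, hN1, hN2, hN3, hN4⟩ := h
        have hlt : finrank F N < n := by
          rw [← hM]
          exact Submodule.finrank_lt_finrank_of_lt (lt_of_le_of_ne hN3 hN4)
        obtain ⟨M', h1, h2, h3, h4⟩ := ih _ hlt N rfl hN1 hN2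
        exact ⟨M', h1, h2, h3.trans hN3, h4⟩
  exact key _ M₀ rfl h₀ hne

/-- **Kolchin's theorem**: a group of unipotent operators on a space different from zero has a
common fixed vector -/
theorem kolchin {W : Type*} [AddCommGroup W] [Module F W] [Module.Finite F W] [Nontrivial W]
    (ρ : G →* Module.End F W) (hu : ∀ g, IsNilpotent (ρ g - 1)) :
    ∃ x : W, x ≠ 0 ∧ ∀ g, ρ g x = x := by
  classical
  obtain ⟨M, hM, hM0, -, hmin⟩ := exists_minimal (fun M : Submodule F W => ∀ g, M ≤ M.comap (ρ g))
    (M₀ := ⊤) (fun g => le_top) bot_ne_top.symm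
  let σ : G →* Module.End F M :=
    { toFun := fun g => (ρ g).restrict (hM g)
      map_one' := by
        apply LinearMap.ext
        intro x
        apply Subtype.ext
        simp
      map_mul' := by
        intro g h
        apply LinearMap.ext
        intro x
        apply Subtype.ext
        simp }
  have hσ : ∀ g (x : M), ((σ g x : M) : W) = ρ g x := fun g x => rfl
  have hσu : ∀ g, IsNilpotent (σ g - 1) := by
    intro g
    obtain ⟨k, hk⟩ := hu g
    refine ⟨k, ?_⟩
    have h1 : ∀ (j : ℕ) (x : M), (((σ g - 1) ^ j) x : W) = ((ρ g - 1) ^ j) (x : W) := by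
      intro j
      induction j with
      | zero => intro x; rfl
      | succ j ih =>
        intro x
        rw [pow_succ, pow_succ, Module.End.mul_apply, Module.End.mul_apply, ih]
        rfl
    apply LinearMap.ext
    intro x
    apply Subtype.ext
    rw [h1, hk]
    rfl
  have hs : ∀ N : Submodule F M, (∀ g, N ≤ N.comap (σ g)) → N ≠ ⊥ → N = ⊤ := by
    intro N hN hN0
    have h1 : N.map M.subtype = M := by
      apply hmin
      · rintro g _ ⟨x, hx, rfl⟩
        exact ⟨σ g x, hN g hx, rfl⟩
      · intro h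
        apply hN0
        rw [eq_bot_iff]
        intro x hx
        have h2 : (x : W) ∈ N.map M.subtype := ⟨x, hx, rfl⟩
        rw [h, Submodule.mem_bot] at h2
        exact (Submodule.mem_bot F).2 (Subtype.ext h2)
      · exact Submodule.map_subtype_le M N
    rw [eq_top_iff]
    intro x _
    have h2 : (x : W) ∈ N.map M.subtype := by
      rw [h1]
      exact x.2
    obtain ⟨y, hy, hyx⟩ := h2
    have : y = x := Subtype.ext hyx
    rwa [this] at hy
  have htriv := kolchin_simple σ hσu hs
  obtain ⟨x, hxM, hx0⟩ := M.ne_bot_iff.1 hM0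
  refine ⟨x, hx0, fun g => ?_⟩
  have h1 := hσ g ⟨x, hxM⟩
  rw [htriv g] at h1
  exact h1.symm

end Pool.Agent.H849.K3
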