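import Pool.Agent.H849.K3.Semi

/-!
# The numerical criterion
-/

set_option autoImplicit false

namespace Pool.Agent.H849.K3

open Polynomial Module NumberField Filter Topology IsDedekindDomain
open Pool.Agent.Y142 (dualPoly charpoly_eq_mul eval_dualPoly aroots_dualPoly det_eq_sign_coeff
  injective_of_similitude)

theorem pow_eq_of_root {F Ω W : Type*} [Field F] [Field Ω] [Algebra F Ω] [AddCommGroup W]
    [Module F W] [FiniteDimensional F W] {e : Module.End F W} {m : ℕ} {c : F}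
    (h : ∀ x, (e ^ m) x = c • x) {z : Ω} (hz : aeval z (LinearMap.charpoly e) = 0) :
    z ^ m = algebraMap F Ω c := by
  have h1 : IsRoot (LinearMap.charpoly (LinearMap.baseChange Ω e)) z := by
    rw [LinearMap.charpoly_baseChange, IsRoot, eval_map_algebraMap]
    exact hz
  rw [← Module.End.hasEigenvalue_iff_isRoot_charpoly] at h1
  obtain ⟨v, hv⟩ := h1.exists_hasEigenvector
  have h2 : ((LinearMap.baseChange Ω e) ^ m) v = z ^ m • v := hv.pow_apply m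
  have h3 : (LinearMap.baseChange Ω e) ^ m = algebraMap F Ω c • 1 := by
    rw [← LinearMap.baseChange_pow]
    have h4 : e ^ m = c • 1 := by
      apply LinearMap.ext
      intro x
      rw [h x]
      rfl
    rw [h4, LinearMap.baseChange_smul, LinearMap.baseChange_one, algebraMap_smul]
  rw [h3] at h2
  have h5 : z ^ m • v = algebraMap F Ω c • v := by
    rw [← h2]
    rfl
  exact smul_left_injective Ω hv.2 h5

variable {ℓ j : ℕ} [hℓ : Fact ℓ.Prime] {V : Type} [AddCommGroup V] [Module ℚ_[ℓ] V]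
  [FiniteDimensional ℚ_[ℓ] V]

namespace K3Type

variable (A : K3Type ℓ j V)

theorem rho_pow (g : G) (m : ℕ) : A.ρ (g ^ m) = A.ρ g ^ m := map_pow _ _ _

/-- the eigenvalues of Frobenius elements on stable spaces of Tate classes -/
theorem root_tate {p : ℕ} (hp : p.Prime) (hpS : p ∉ A.S) {σ : G} (hσ : IsFrobenius p σ)
    {W : Submodule ℚ_[ℓ] V} (hW : ∀ g, W ≤ W.comap (A.ρ g)) (hWT : W ≤ A.tate) :
    ∀ z ∈ ((A.ρ σ⁻¹).restrict (hW σ⁻¹)).charpoly.aroots (PadicAlgCl ℓ),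
      ∃ m : ℕ, 0 < m ∧ z ^ m = ((p ^ j : ℕ) : PadicAlgCl ℓ) ^ m := by
  obtain ⟨N, hN, hNo, hNf, hNT⟩ := A.exists_tate_subgroup
  obtain ⟨m, hm, hmN⟩ : ∃ m, 0 < m ∧ σ⁻¹ ^ m ∈ N := by
    refine ⟨N.index, Nat.pos_of_ne_zero hNf.index_ne_zero, ?_⟩
    exact N.pow_index_mem σ⁻¹
  intro z hz
  refine ⟨m, hm, ?_⟩
  have h1 : ∀ (k : ℕ) (x : W), (((((A.ρ σ⁻¹).restrict (hW σ⁻¹)) ^ k) x : W) : V) =
      A.ρ (σ⁻¹ ^ k) x := by
    intro k
    induction k with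
    | zero => intro x; simp
    | succ k ih =>
      intro x
      rw [pow_succ, pow_succ, Module.End.mul_apply, ih, rho_mul_apply]
      rfl
  have h2 := pow_eq_of_root (F := ℚ_[ℓ]) (Ω := PadicAlgCl ℓ) (W := W)
    (e := (A.ρ σ⁻¹).restrict (hW σ⁻¹)) (m := m) (c := ((p : ℚ_[ℓ]) ^ j) ^ m) (by
      intro x
      apply Subtype.ext
      rw [h1, hNT _ hmN _ (hWT x.2), map_pow, A.tateModule p hp hpS σ hσ]
      rfl) (z := z) ((mem_aroots.1 hz).2)
  rw [h2]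
  simp

/-- the space of Tate classes and its radical are seen by each Frobenius -/
theorem finrank_add_le {p : ℕ} (hp : p.Prime) (hpS : p ∉ A.S) :
    finrank ℚ_[ℓ] A.tate + finrank ℚ_[ℓ] (A.tate ⊓ A.B.orthogonal A.tate : Submodule ℚ_[ℓ] V) ≤
      A.frobTate p := by
  classical
  have hrefl := isRefl_of A.B A.symm_or_alt
  obtain ⟨σ, hσ⟩ := exists_isFrobenius p hp
  have hT : ∀ g, A.tate ≤ A.tate.comap (A.ρ g) := fun g x hx => A.tate_stable g x hx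
  obtain ⟨R, hRdef⟩ : ∃ R : Submodule ℚ_[ℓ] V, R = A.tate ⊓ A.B.orthogonal A.tate := ⟨_, rfl⟩
  rw [← hRdef]
  have hR : ∀ g, R ≤ R.comap (A.ρ g) := by
    rw [hRdef]
    exact fun g x hx => A.inf_stable A.tate_stable (A.orth_stable A.tate_stable) g x hx
  have hRT : R ≤ A.tate := by
    rw [hRdef]
    exact inf_le_left
  have hTR : A.tate ≤ A.B.orthogonal R := by
    intro t ht r hr
    rw [hRdef] at hr
    exact hrefl _ _ (hr.2 t ht)
  have hψ := A.tateModule p hp hpS σ hσ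
  have hp0 : (p : ℚ_[ℓ]) ^ j ≠ 0 := pow_ne_zero _ (by exact_mod_cast hp.ne_zero)
  have hsim : ∀ x y, A.B (A.ρ σ⁻¹ x) (A.ρ σ⁻¹ y) = ((p : ℚ_[ℓ]) ^ j) ^ 2 * A.B x y := by
    intro x y
    rw [A.similitude, hψ]
  have hdvd := charpoly_pair_dvd A.nondegenerate (pow_ne_zero 2 hp0) hsim (hT σ⁻¹) (hR σ⁻¹) hTR
  rw [A.charpoly p hp hpS σ hσ] at hdvd
  set Q₁ := ((A.ρ σ⁻¹).restrict (hT σ⁻¹)).charpoly with hQ₁
  set Q₂ := ((A.ρ σ⁻¹).restrict (hR σ⁻¹)).charpoly with hQ₂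
  have hm₁ : Q₁.Monic := LinearMap.charpoly_monic _
  have hm₂ : Q₂.Monic := LinearMap.charpoly_monic _
  have hd₁ : Q₁.natDegree = finrank ℚ_[ℓ] A.tate := LinearMap.charpoly_natDegree _
  have hd₂ : Q₂.natDegree = finrank ℚ_[ℓ] R := LinearMap.charpoly_natDegree _
  have hcard : ∀ {Q : (ℚ_[ℓ])[X]}, Q.Monic → (Q.aroots (PadicAlgCl ℓ)).card = Q.natDegree := by
    intro Q hQ
    rw [aroots_def, ← (IsAlgClosed.splits (Q.map (algebraMap ℚ_[ℓ] (PadicAlgCl ℓ)))).natDegree_eq_card_roots,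
      hQ.natDegree_map]
  have h0 : Q₂.eval 0 ≠ 0 := by
    have h1 : Q₂.eval 0 = Q₂.coeff 0 := by rw [coeff_zero_eq_eval_zero]
    rw [h1]
    intro h2
    have h3 := det_eq_sign_coeff ((A.ρ σ⁻¹).restrict (hR σ⁻¹))
    rw [← hQ₂, h2, mul_zero] at h3
    have h4 : Function.Injective ((A.ρ σ⁻¹).restrict (hR σ⁻¹)) := by
      intro x y hxy
      apply Subtype.ext
      exact injective_of_similitude A.nondegenerate (pow_ne_zero 2 hp0) hsim (congrArg Subtype.val hxy)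
    exact (LinearMap.bot_lt_ker_of_det_eq_zero h3).ne' (LinearMap.ker_eq_bot.2 h4)
  have hP0 : (A.P p).map (algebraMap ℤ ℚ_[ℓ]) ≠ 0 := ((A.monic p hp hpS).map _).ne_zero
  have hroots₂ := aroots_dualPoly (Ω := PadicAlgCl ℓ) (pow_ne_zero 2 hp0) hm₂ h0
  have hne : Q₁ * dualPoly (((p : ℚ_[ℓ]) ^ j) ^ 2) Q₂ ≠ 0 := by
    intro h
    rw [h] at hdvd
    exact hP0 (zero_dvd_iff.1 hdvd)
  have hle : (Q₁ * dualPoly (((p : ℚ_[ℓ]) ^ j) ^ 2) Q₂).aroots (PadicAlgCl ℓ) ≤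
      (A.P p).aroots (PadicAlgCl ℓ) := by
    have h1 : (A.P p).aroots (PadicAlgCl ℓ) =
        ((A.P p).map (algebraMap ℤ ℚ_[ℓ])).aroots (PadicAlgCl ℓ) := by
      rw [aroots_def, aroots_def, Polynomial.map_map]
      congr 2
    rw [h1, aroots_def, aroots_def]
    refine Polynomial.roots.le_of_dvd ?_ (Polynomial.map_dvd _ hdvd)
    exact (Polynomial.map_ne_zero_iff (algebraMap ℚ_[ℓ] (PadicAlgCl ℓ)).injective).2 hP0
  have hall : ∀ z ∈ (Q₁ * dualPoly (((p : ℚ_[ℓ]) ^ j) ^ 2) Q₂).aroots (PadicAlgCl ℓ),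
      ∃ m : ℕ, 0 < m ∧ z ^ m = ((p ^ j : ℕ) : PadicAlgCl ℓ) ^ m := by
    intro z hz
    rw [aroots_mul hne, Multiset.mem_add] at hz
    rcases hz with hz | hz
    · exact A.root_tate hp hpS hσ hT le_rfl z hz
    · rw [hroots₂] at hz
      obtain ⟨y, hy, rfl⟩ := Multiset.mem_map.1 hz
      obtain ⟨m, hm, hym⟩ := A.root_tate hp hpS hσ hR hRT y hy
      refine ⟨m, hm, ?_⟩
      have hq0 : ((p ^ j : ℕ) : PadicAlgCl ℓ) ≠ 0 := by
        have : CharZero (PadicAlgCl ℓ) :=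
          charZero_of_injective_algebraMap (algebraMap ℚ_[ℓ] (PadicAlgCl ℓ)).injective
        exact_mod_cast pow_ne_zero j hp.ne_zero
      rw [div_pow, hym]
      have h2 : algebraMap ℚ_[ℓ] (PadicAlgCl ℓ) (((p : ℚ_[ℓ]) ^ j) ^ 2) =
          ((p ^ j : ℕ) : PadicAlgCl ℓ) ^ 2 := by simp
      rw [h2]
      field_simp
      ring
  have h1 : A.frobTate p = (((A.P p).aroots (PadicAlgCl ℓ)).filter fun z => ∃ m : ℕ, 0 < m ∧
      z ^ m = ((p ^ j : ℕ) : PadicAlgCl ℓ) ^ m).card := by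
    have : CharZero (PadicAlgCl ℓ) :=
      charZero_of_injective_algebraMap (algebraMap ℚ_[ℓ] (PadicAlgCl ℓ)).injective
    let _ : Algebra ℚ (PadicAlgCl ℓ) := DivisionRing.toRatAlgebra
    unfold frobTate
    convert card_filter_eq (P := A.P p) (p ^ j) (Ω := PadicAlgCl ℓ) using 3
    rfl
  rw [h1, ← hd₁, ← hd₂, ← hcard hm₁, ← hcard hm₂]
  have h2 : (Q₁.aroots (PadicAlgCl ℓ)).card + (Q₂.aroots (PadicAlgCl ℓ)).card =
      ((Q₁ * dualPoly (((p : ℚ_[ℓ]) ^ j) ^ 2) Q₂).aroots (PadicAlgCl ℓ)).card := by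
    rw [aroots_mul hne, Multiset.card_add, hroots₂, Multiset.card_map]
  rw [h2, ← Multiset.filter_eq_self.2 hall]
  exact Multiset.card_le_card (Multiset.filter_le_filter _ hle)

/-- the numerical criterion -/
theorem semisimple_of_frobTate (hj : 0 < j) {p : ℕ} (hp : p.Prime) (hpS : p ∉ A.S)
    {Z : Submodule ℚ_[ℓ] V} (hZ : Z ≤ A.tate) (hnd : ∀ x ∈ Z, (∀ y ∈ Z, A.B x y = 0) → x = 0)
    (h : A.frobTate p ≤ finrank ℚ_[ℓ] Z + 1) : A.IsSemisimple := by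
  have hrefl := isRefl_of A.B A.symm_or_alt
  apply A.semisimple_of_nondegenerate hj
  intro x hx hx'
  have h1 := A.finrank_add_le hp hpS
  set R : Submodule ℚ_[ℓ] V := A.tate ⊓ A.B.orthogonal A.tate with hR
  have hxR : x ∈ R := ⟨hx, fun y hy => hrefl _ _ (hx' y hy)⟩
  have h2 : Z ⊓ R = ⊥ := by
    rw [eq_bot_iff]
    rintro y ⟨hy, hy'⟩
    exact (Submodule.mem_bot _).2 (hnd y hy fun z hz => hrefl _ _ (hy'.2 z (hZ hz)))
  have h3 : finrank ℚ_[ℓ] Z + finrank ℚ_[ℓ] R ≤ finrank ℚ_[ℓ] A.tate := by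
    have h4 := Submodule.finrank_sup_add_finrank_inf_eq Z R
    rw [h2, finrank_bot, add_zero] at h4
    rw [← h4]
    exact Submodule.finrank_mono (sup_le hZ inf_le_left)
  have h5 : finrank ℚ_[ℓ] R = 0 := by omega
  rw [Submodule.finrank_eq_zero] at h5
  rw [h5, Submodule.mem_bot] at hxR
  exact hxR

end K3Type

end Pool.Agent.H849.K3
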