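import Pool.Agent.H849.K3.Rou

/-!
# The normalized Frobenius polynomial
-/

set_option autoImplicit false

namespace Pool.Agent.H849.K3

open Polynomial Module

/-- the normalized polynomial -/
theorem exists_normalized {P : ℤ[X]} {p j : ℕ} (hj : 0 < j)
    (hodge : ∀ i : ℕ, 1 ≤ i → i ≤ P.natDegree → (p : ℤ) ^ (i * j - 1) ∣ P.coeff (P.natDegree - i)) :
    ∃ f : ℤ[X], P.comp (C ((p : ℤ) ^ j) * X) = C ((p : ℤ) ^ (P.natDegree * j - 1)) * f := by
  rw [← dvd_def, C_dvd_iff_dvd_coeff]
  intro k
  rw [comp_C_mul_X_coeff, ← pow_mul]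
  rcases lt_trichotomy k P.natDegree with h | h | h
  · have h1 := hodge (P.natDegree - k) (by omega) (by omega)
    rw [Nat.sub_sub_self h.le] at h1
    have h2 : P.natDegree * j - 1 = ((P.natDegree - k) * j - 1) + j * k := by
      have h3 : 1 ≤ (P.natDegree - k) * j := Nat.mul_pos (by omega) hj
      have h4 : P.natDegree * j = (P.natDegree - k) * j + j * k := by
        rw [mul_comm j k, ← add_mul, Nat.sub_add_cancel h.le]
      omega
    rw [h2, pow_add]
    exact mul_dvd_mul_right h1 _
  · subst h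
    refine Dvd.dvd.mul_left (pow_dvd_pow _ ?_) _
    rw [mul_comm]
    omega
  · rw [coeff_eq_zero_of_natDegree_lt h, zero_mul]
    exact dvd_zero _

section roots

variable {Ω : Type*} [Field Ω] [CharZero Ω] [IsAlgClosed Ω]

theorem normalized_map {P f : ℤ[X]} {p j : ℕ} (hp : p.Prime) (hj : 0 < j) (hn : 0 < P.natDegree)
    (hP : P.Monic) (hf : P.comp (C ((p : ℤ) ^ j) * X) = C ((p : ℤ) ^ (P.natDegree * j - 1)) * f) :
    f.map (algebraMap ℤ Ω) = C (p : Ω) *
      (((P.aroots Ω).map fun z => z / (p : Ω) ^ j).map fun y => X - C y).prod := by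
  have hp0 : (p : Ω) ≠ 0 := by exact_mod_cast hp.ne_zero
  have hpj : (p : Ω) ^ j ≠ 0 := pow_ne_zero _ hp0
  have hsplit : P.map (algebraMap ℤ Ω) = ((P.aroots Ω).map fun z => X - C z).prod := by
    rw [aroots_def]
    exact (IsAlgClosed.splits _).eq_prod_roots_of_monic (hP.map _)
  have hcard : (P.aroots Ω).card = P.natDegree := by
    rw [aroots_def, ← (IsAlgClosed.splits (P.map (algebraMap ℤ Ω))).natDegree_eq_card_roots,
      hP.natDegree_map]
  have h1 := congrArg (Polynomial.map (algebraMap ℤ Ω)) hf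
  have hc : ∀ m : ℕ, algebraMap ℤ Ω ((p : ℤ) ^ m) = (p : Ω) ^ m := by
    intro m
    rw [map_pow, map_natCast]
  rw [Polynomial.map_comp, hsplit, Polynomial.map_mul, Polynomial.map_mul, map_C, map_C, map_X,
    hc, hc] at h1
  have key : ∀ s : Multiset Ω, ((s.map fun z => X - C z).prod).comp (C ((p : Ω) ^ j) * X) =
      C ((p : Ω) ^ (s.card * j)) * ((s.map fun z => z / (p : Ω) ^ j).map fun y => X - C y).prod := by
    intro s
    induction s using Multiset.induction_on with
    | empty => simp
    | cons a s ih =>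
      rw [Multiset.map_cons, Multiset.prod_cons, mul_comp, ih, Multiset.map_cons, Multiset.map_cons,
        Multiset.prod_cons, Multiset.card_cons, sub_comp, X_comp, C_comp, add_mul, one_mul, pow_add,
        C_mul]
      have h2 : (C ((p : Ω) ^ j) : Polynomial Ω) * C (a / (p : Ω) ^ j) = C a := by
        rw [← C_mul, mul_div_cancel₀ _ hpj]
      linear_combination (C ((p : Ω) ^ (s.card * j)) *
        ((s.map fun z => z / (p : Ω) ^ j).map fun y => X - C y).prod) * h2
  rw [key (P.aroots Ω), hcard] at h1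
  have h4 : P.natDegree * j = (P.natDegree * j - 1) + 1 := by
    have : 0 < P.natDegree * j := Nat.mul_pos hn hj
    omega
  rw [h4, pow_succ, Nat.add_sub_cancel, C_mul, mul_assoc] at h1
  have h5 : (C ((p : Ω) ^ (P.natDegree * j - 1)) : Polynomial Ω) ≠ 0 :=
    C_ne_zero.2 (pow_ne_zero _ hp0)
  exact (mul_left_cancel₀ h5 h1).symm

omit [CharZero Ω] in
theorem normalized_coeff {P f : ℤ[X]} {p j : ℕ} (hn : 0 < P.natDegree)
    (hP : P.Monic)
    (hf : f.map (algebraMap ℤ Ω) = C (p : Ω) *
      (((P.aroots Ω).map fun z => z / (p : Ω) ^ j).map fun y => X - C y).prod) :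
    ((-f.coeff (P.natDegree - 1) : ℤ) : Ω) = p * ((P.aroots Ω).map fun z => z / (p : Ω) ^ j).sum := by
  have hcard : ((P.aroots Ω).map fun z => z / (p : Ω) ^ j).card = P.natDegree := by
    rw [Multiset.card_map, aroots_def,
      ← (IsAlgClosed.splits (P.map (algebraMap ℤ Ω))).natDegree_eq_card_roots, hP.natDegree_map]
  have h1 := congrArg (fun q => Polynomial.coeff q (P.natDegree - 1)) hf
  simp only [coeff_map, coeff_C_mul] at h1
  rw [← hcard, Polynomial.multiset_prod_X_sub_C_coeff_card_pred _ (by rw [hcard]; exact hn)] at h1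
  rw [← hcard]
  push_cast
  have h2 : (algebraMap ℤ Ω) (f.coeff
      (Multiset.card ((P.aroots Ω).map fun z => z / (p : Ω) ^ j) - 1)) =
      ((f.coeff (Multiset.card ((P.aroots Ω).map fun z => z / (p : Ω) ^ j) - 1) : ℤ) : Ω) := rfl
  rw [← h2, h1]
  ring

end roots

/-- a sum of complex numbers of absolute value one -/
theorem sum_re_le {s : Multiset ℂ} (hs : ∀ y ∈ s, ‖y‖ = 1) :
    s.sum.re ≤ s.card ∧ (s.sum.re = s.card → ∀ y ∈ s, y = 1) := by
  induction s using Multiset.induction_on with
  | empty => simp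
  | cons a s ih =>
    obtain ⟨h1, h2⟩ := ih fun y hy => hs y (Multiset.mem_cons_of_mem hy)
    have ha := hs a (Multiset.mem_cons_self _ _)
    have ha1 : a.re ≤ 1 := ha ▸ Complex.re_le_norm a
    rw [Multiset.sum_cons, Complex.add_re, Multiset.card_cons]
    push_cast
    refine ⟨by linarith, fun h => ?_⟩
    have h3 : a.re = 1 := by linarith
    have h4 : s.sum.re = s.card := by linarith
    intro y hy
    rcases Multiset.mem_cons.1 hy with rfl | hy
    · have h5 : y.re ^ 2 + y.im ^ 2 = 1 := by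
        have := Complex.sq_norm y
        rw [ha, Complex.normSq_apply] at this
        nlinarith
      have h6 : y.im = 0 := by
        rw [h3] at h5
        nlinarith
      exact Complex.ext h3 h6
    · exact h2 h4 y hy

theorem norm_sum_le_card {s : Multiset ℂ} (hs : ∀ y ∈ s, ‖y‖ = 1) : ‖s.sum‖ ≤ s.card := by
  induction s using Multiset.induction_on with
  | empty => simp
  | cons a s ih =>
    have h1 := ih fun y hy => hs y (Multiset.mem_cons_of_mem hy)
    have ha := hs a (Multiset.mem_cons_self _ _)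
    rw [Multiset.sum_cons, Multiset.card_cons]
    push_cast
    refine (norm_add_le _ _).trans ?_
    rw [ha]
    linarith

theorem sum_near {ℓ : ℕ} [hℓ : Fact ℓ.Prime] {ε : ℝ} (h0 : 0 ≤ ε) {s : Multiset (PadicAlgCl ℓ)}
    (hs : ∀ y ∈ s, ‖y - 1‖ ≤ ε) : ‖s.sum - s.card‖ ≤ ε := by
  induction s using Multiset.induction_on with
  | empty => simpa using h0
  | cons a s ih =>
    have h1 := ih fun y hy => hs y (Multiset.mem_cons_of_mem hy)
    have ha := hs a (Multiset.mem_cons_self _ _)
    rw [Multiset.sum_cons, Multiset.card_cons]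
    push_cast
    have h2 : a + s.sum - ((s.card : PadicAlgCl ℓ) + 1) = (a - 1) + (s.sum - s.card) := by ring
    rw [h2]
    exact (IsUltrametricDist.norm_add_le_max _ _).trans (max_le ha h1)

end Pool.Agent.H849.K3
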