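import Pool.Agent.H849.K3.Core
import Pool.Agent.H849.K3.Kol
import Pool.Agent.H849.K3.Defs
import Pool.Graph.R_seed8.R932.SQ.Main

/-!
# Isotropic subspaces of representations of K3 type
-/

set_option autoImplicit false

namespace Pool.Agent.H849.K3

open Polynomial Module NumberField Filter Topology IsDedekindDomain
open Pool.Agent.Y142 (dualPoly resRep detRep coe_detRep continuous_detRep det_eq_sign_coeff
  charpoly_mul_dual_dvd charpoly_eq_mul)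

variable {ℓ j : ℕ} [hℓ : Fact ℓ.Prime] {V : Type} [AddCommGroup V] [Module ℚ_[ℓ] V]
  [FiniteDimensional ℚ_[ℓ] V]

/-- Frobenius elements are dense -/
theorem exists_frob (O : Set G) (hO : IsOpen O) (hne : O.Nonempty) (T : Finset ℕ) :
    ∃ p : ℕ, p.Prime ∧ p ∉ T ∧ ∃ σ : G, IsFrobenius p σ ∧ σ⁻¹ ∈ O := by
  have hfin : {v : HeightOneSpectrum (𝓞 ℚ) | ∃ p ∈ T, p.Prime ∧ (p : 𝓞 ℚ) ∈ v.asIdeal}.Finite := by
    have h1 : {v : HeightOneSpectrum (𝓞 ℚ) | ∃ p ∈ T, p.Prime ∧ (p : 𝓞 ℚ) ∈ v.asIdeal} ⊆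
        ⋃ p ∈ (T : Set ℕ), {v : HeightOneSpectrum (𝓞 ℚ) | p.Prime ∧ (p : 𝓞 ℚ) ∈ v.asIdeal} := by
      rintro v ⟨p, hp, hv⟩
      simp only [Set.mem_iUnion]
      exact ⟨p, hp, hv⟩
    refine Set.Finite.subset (T.finite_toSet.biUnion fun p _ => ?_) h1
    by_cases hp : p.Prime
    · exact (Pool.Agent.Y142.ZO.finite_above p hp).subset fun v hv => hv.2
    · convert Set.finite_empty
      ext v
      simp [hp]
  obtain ⟨v, hv, σ, ⟨Q, hQ, hQv, hσ⟩, hσO⟩ := Pool.Agent.Y405.ZO.t ℚ O hO hne _ hfin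
  obtain ⟨p, hp, hpv, hpn⟩ := Pool.Agent.R932.SQ.exists_prime (by simp) v
  refine ⟨p, hp, fun h => hv ⟨p, h, hp, hpv⟩, σ, ⟨Q, hQ, ?_, ?_⟩, hσO⟩
  · rw [← hQv] at hpv
    simpa using hpv
  · rw [hpn] at hσ
    exact hσ

namespace K3Type

variable (A : K3Type ℓ j V)

theorem psi_ne_zero (g : G) : A.ψ g ≠ 0 := by
  intro h
  have h1 : A.ψ (g * g⁻¹) = 0 := by rw [map_mul, h, zero_mul]
  rw [mul_inv_cancel, map_one] at h1
  exact one_ne_zero h1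

/-- the determinant of a stable subspace -/
theorem det_rel (hj : 0 < j) {W : Submodule ℚ_[ℓ] V} (hW : ∀ g, W ≤ W.comap (A.ρ g)) :
    ∃ N : ℕ, 0 < N ∧ ∀ g, LinearMap.det ((A.ρ g).restrict (hW g)) ^ N =
      (A.ψ g ^ finrank ℚ_[ℓ] W) ^ N := by
  let χ : G →* ℚ_[ℓ]ˣ := (A.ψ.toHomUnits) ^ 2
  have hχ : ∀ g : G, (χ g : ℚ_[ℓ]) = A.ψ g ^ 2 := fun g => rfl
  have hcχ : Continuous fun g : G => (χ g : ℚ_[ℓ]) := A.continuous_ψ.pow 2
  obtain ⟨n, hn, h⟩ := Pool.Agent.Y142.char_main (detRep A.ρ W hW) χ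
    (continuous_detRep A.ρ W hW A.continuous_ρ) hcχ (w := 2 * j) (d := finrank ℚ_[ℓ] W) (by omega) (by
      intro T
      obtain ⟨q, hq, hqT, σ, hσ, -⟩ := exists_frob Set.univ isOpen_univ Set.univ_nonempty (T ∪ A.S)
      rw [Finset.mem_union, not_or] at hqT
      refine ⟨q, hq, hqT.1, σ⁻¹, ?_, ?_⟩
      · refine (hχ σ⁻¹).trans ?_
        rw [A.tateModule q hq hqT.2 σ hσ, ← pow_mul, mul_comm]
      · have h4 : ((A.ρ σ⁻¹).restrict (hW σ⁻¹)).charpoly ∣ (A.P q).map (algebraMap ℤ ℚ_[ℓ]) := by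
          rw [← A.charpoly q hq hqT.2 σ hσ, charpoly_eq_mul (hW σ⁻¹)]
          exact dvd_mul_right _ _
        have hw2 : ∀ z : ℂ, aeval z (A.P q) = 0 → ‖z‖ ^ 2 = (q : ℝ) ^ (2 * j) := by
          intro z hz
          rw [A.weight q hq hqT.2 z hz, ← pow_mul, mul_comm]
        have h5 := Pool.Agent.Y142.pure_coeff_zero (A.monic q hq hqT.2) hw2
          (LinearMap.charpoly_monic _) h4
        rw [← det_eq_sign_coeff, LinearMap.charpoly_natDegree, ← pow_mul] at h5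
        exact h5)
  refine ⟨2 * n, by omega, fun g => ?_⟩
  have h1 : LinearMap.det ((A.ρ g).restrict (hW g)) ^ (2 * n) =
      (A.ψ g ^ 2) ^ (finrank ℚ_[ℓ] W * n) := by
    have h2 := congrArg Units.val (h g)
    rw [Units.val_pow_eq_pow_val, Units.val_pow_eq_pow_val] at h2
    exact h2
  rw [h1, ← pow_mul, ← pow_mul]
  congr 1
  ring

/-- an open subgroup acting by matrices close to the identity -/
theorem exists_near (k : ℕ) : ∃ U : Subgroup G, IsOpen (U : Set G) ∧ ∀ g ∈ U,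
    (∀ z : PadicAlgCl ℓ, aeval z (A.ρ g).charpoly = 0 → ‖z - 1‖ ≤ (ℓ : ℝ) ^ (-(k : ℤ))) ∧
    ‖A.ψ g - 1‖ ≤ (ℓ : ℝ) ^ (-(k : ℤ)) := by
  have hℓ0 : (0 : ℝ) < ℓ := by exact_mod_cast hℓ.out.pos
  have hε : (0 : ℝ) < (ℓ : ℝ) ^ (-(k : ℤ)) := by positivity
  obtain ⟨N, hN, h1⟩ := Pool.Agent.Y142.exists_near_subgroup A.ρ A.continuous_ρ hε
  have h2 : {g : G | ‖A.ψ g - 1‖ < (ℓ : ℝ) ^ (-(k : ℤ))} ∈ 𝓝 (1 : G) := by
    have h3 : Continuous fun g => ‖A.ψ g - 1‖ := (A.continuous_ψ.sub continuous_const).norm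
    refine (isOpen_lt h3 continuous_const).mem_nhds ?_
    show ‖A.ψ 1 - 1‖ < _
    rw [map_one, sub_self, norm_zero]
    exact hε
  rw [krullTopology_mem_nhds_one_iff] at h2
  obtain ⟨E, hE, hE2⟩ := h2
  refine ⟨N ⊓ E.fixingSubgroup, hN.inter E.fixingSubgroup_isOpen, fun g hg => ⟨h1 g hg.1, ?_⟩⟩
  exact le_of_lt (hE2 hg.2)

/-- a monic polynomial with only one root in the algebraic closure -/
theorem eq_pow_of_roots {Q : (ℚ_[ℓ])[X]} (hQ : Q.Monic) {c : ℚ_[ℓ]}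
    (h : ∀ z ∈ Q.aroots (PadicAlgCl ℓ), z = algebraMap ℚ_[ℓ] (PadicAlgCl ℓ) c) :
    Q = (X - C c) ^ Q.natDegree := by
  apply Polynomial.map_injective (algebraMap ℚ_[ℓ] (PadicAlgCl ℓ))
    (algebraMap ℚ_[ℓ] (PadicAlgCl ℓ)).injective
  have hsplit : Q.map (algebraMap ℚ_[ℓ] (PadicAlgCl ℓ)) =
      ((Q.aroots (PadicAlgCl ℓ)).map fun z => X - C z).prod := by
    rw [aroots_def]
    exact (IsAlgClosed.splits _).eq_prod_roots_of_monic (hQ.map _)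
  have hcard : (Q.aroots (PadicAlgCl ℓ)).card = Q.natDegree := by
    rw [aroots_def, ← (IsAlgClosed.splits (Q.map (algebraMap ℚ_[ℓ] (PadicAlgCl ℓ)))).natDegree_eq_card_roots,
      hQ.natDegree_map]
  have hrep := Multiset.eq_replicate_card.2 h
  rw [hcard] at hrep
  rw [hsplit, hrep, Multiset.map_replicate, Multiset.prod_replicate, Polynomial.map_pow,
    Polynomial.map_sub, map_X, map_C]

/-- geometric Frobenius elements of an open subgroup on an isotropic subspace -/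
theorem frob_charpoly (hj : 0 < j) {W : Submodule ℚ_[ℓ] V} (hW : ∀ g, W ≤ W.comap (A.ρ g))
    (hiso : W ≤ A.B.orthogonal W) {k : ℕ} (hk : 2 ≤ k) (hk2 : 2 * finrank ℚ_[ℓ] V < ℓ ^ k)
    {p : ℕ} (hp : p.Prime) (hpS : p ∉ A.S) {σ : G} (hσ : IsFrobenius p σ)
    (h1 : ∀ z : PadicAlgCl ℓ, aeval z (A.ρ σ⁻¹).charpoly = 0 → ‖z - 1‖ ≤ (ℓ : ℝ) ^ (-(k : ℤ)))
    (h2 : ‖A.ψ σ⁻¹ - 1‖ ≤ (ℓ : ℝ) ^ (-(k : ℤ))) :
    ((A.ρ σ⁻¹).restrict (hW σ⁻¹)).charpoly = (X - C (A.ψ σ⁻¹)) ^ finrank ℚ_[ℓ] W := by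
  set Q := ((A.ρ σ⁻¹).restrict (hW σ⁻¹)).charpoly with hQ
  have hQm : Q.Monic := LinearMap.charpoly_monic _
  have hQd : Q.natDegree = finrank ℚ_[ℓ] W := LinearMap.charpoly_natDegree _
  have hcp := A.charpoly p hp hpS σ hσ
  have hψ := A.tateModule p hp hpS σ hσ
  have hdeg : (A.P p).natDegree = finrank ℚ_[ℓ] V := by
    rw [← LinearMap.charpoly_natDegree (A.ρ σ⁻¹), hcp, (A.monic p hp hpS).natDegree_map]
  have hp0 : (p : ℚ_[ℓ]) ^ j ≠ 0 := pow_ne_zero _ (by exact_mod_cast hp.ne_zero)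
  have hdvd : Q * dualPoly (((p : ℚ_[ℓ]) ^ j) ^ 2) Q ∣ (A.P p).map (algebraMap ℤ ℚ_[ℓ]) := by
    rw [← hcp]
    refine charpoly_mul_dual_dvd A.nondegenerate (pow_ne_zero _ hp0) ?_ (hW σ⁻¹) hiso
    intro x y
    rw [A.similitude, hψ]
  obtain ⟨N, hN, hdet⟩ := A.det_rel hj hW
  have hcard : (Q.aroots (PadicAlgCl ℓ)).card = finrank ℚ_[ℓ] W := by
    rw [← hQd, aroots_def,
      ← (IsAlgClosed.splits (Q.map (algebraMap ℚ_[ℓ] (PadicAlgCl ℓ)))).natDegree_eq_card_roots,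
      hQm.natDegree_map]
  have hprod : (Q.aroots (PadicAlgCl ℓ)).prod ^ N =
      (((p : PadicAlgCl ℓ) ^ j) ^ (Q.aroots (PadicAlgCl ℓ)).card) ^ N := by
    have h3 := (IsAlgClosed.splits (Q.map (algebraMap ℚ_[ℓ] (PadicAlgCl ℓ)))).coeff_zero_eq_prod_roots_of_monic
      (hQm.map _)
    rw [hQm.natDegree_map, coeff_map] at h3
    have h4 : algebraMap ℚ_[ℓ] (PadicAlgCl ℓ) (LinearMap.det ((A.ρ σ⁻¹).restrict (hW σ⁻¹))) =
        (Q.aroots (PadicAlgCl ℓ)).prod := by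
      rw [det_eq_sign_coeff, ← hQ, map_mul, map_pow, map_neg, map_one, h3, ← mul_assoc, ← mul_pow,
        aroots_def]
      simp
    have h5 := congrArg (algebraMap ℚ_[ℓ] (PadicAlgCl ℓ)) (hdet σ⁻¹)
    rw [map_pow, h4, map_pow, map_pow, hψ, map_pow, map_natCast] at h5
    rw [h5, hcard]
  have hroots := roots_eq hp hj (A.monic p hp hpS) (A.weight p hp hpS) (A.hodge p hp hpS) hQm hdvd hN
    hprod hk (by rw [hdeg]; exact hk2) (by
      intro z hz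
      apply h1
      rw [hcp, aeval_map_algebraMap]
      exact (mem_aroots.1 hz).2) (by
      have h3 : (p : PadicAlgCl ℓ) ^ j - 1 = ((A.ψ σ⁻¹ - 1 : ℚ_[ℓ]) : PadicAlgCl ℓ) := by
        rw [hψ]
        simp
      rw [h3, PadicAlgCl.norm_extends]
      exact h2)
  rw [← hQd]
  apply eq_pow_of_roots hQm
  intro z hz
  rw [hroots z hz, hψ, map_pow, map_natCast]

theorem continuous_pow_sub (k : ℕ) (φ : Dual ℚ_[ℓ] V) (x : V) :
    Continuous fun g => φ (((A.ρ g - A.ψ g • 1) ^ k) x) := by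
  have h1 : ∀ (φ : Dual ℚ_[ℓ] V) (x : V), Continuous fun g => φ ((A.ρ g - A.ψ g • 1) x) := by
    intro φ x
    have h2 : (fun g => φ ((A.ρ g - A.ψ g • (1 : V →ₗ[ℚ_[ℓ]] V)) x)) =
        fun g => φ (A.ρ g x) - A.ψ g * φ x := by
      funext g
      rw [LinearMap.sub_apply, map_sub, LinearMap.smul_apply, map_smul, smul_eq_mul]
      rfl
    rw [h2]
    exact (A.continuous_ρ φ x).sub (A.continuous_ψ.mul continuous_const)
  induction k generalizing φ x with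
  | zero =>
    simp only [pow_zero]
    exact continuous_const
  | succ k ih =>
    let b := Module.finBasis ℚ_[ℓ] V
    have h2 : (fun g => φ (((A.ρ g - A.ψ g • (1 : V →ₗ[ℚ_[ℓ]] V)) ^ (k + 1)) x)) =
        fun g => ∑ i, b.coord i (((A.ρ g - A.ψ g • (1 : V →ₗ[ℚ_[ℓ]] V)) ^ k) x) *
          φ ((A.ρ g - A.ψ g • (1 : V →ₗ[ℚ_[ℓ]] V)) (b i)) := by
      funext g
      rw [pow_succ', Module.End.mul_apply]
      conv_lhs => rw [← b.sum_repr (((A.ρ g - A.ψ g • (1 : V →ₗ[ℚ_[ℓ]] V)) ^ k) x)]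
      rw [map_sum, map_sum]
      refine Finset.sum_congr rfl fun i _ => ?_
      rw [map_smul, map_smul, smul_eq_mul]
      rfl
    rw [h2]
    exact continuous_finsetSum _ fun i _ => (ih _ _).mul (h1 _ _)

/-- **Isotropic stable subspaces are potentially unipotent up to a twist.** -/
theorem isotropic_unipotent (hj : 0 < j) {W : Submodule ℚ_[ℓ] V}
    (hW : ∀ g, W ≤ W.comap (A.ρ g)) (hiso : W ≤ A.B.orthogonal W) :
    ∃ U : Subgroup G, IsOpen (U : Set G) ∧ ∀ g ∈ U, ∀ x ∈ W,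
      ((A.ρ g - A.ψ g • 1) ^ finrank ℚ_[ℓ] W) x = 0 := by
  obtain ⟨k, hk, hk2⟩ : ∃ k : ℕ, 2 ≤ k ∧ 2 * finrank ℚ_[ℓ] V < ℓ ^ k := by
    refine ⟨2 * finrank ℚ_[ℓ] V + 2, by omega, ?_⟩
    have h1 : 2 * finrank ℚ_[ℓ] V + 2 < ℓ ^ (2 * finrank ℚ_[ℓ] V + 2) :=
      Nat.lt_pow_self hℓ.out.one_lt
    omega
  obtain ⟨U, hU, hUn⟩ := A.exists_near k
  refine ⟨U, hU, ?_⟩
  intro g hg x hx
  by_contra hne
  obtain ⟨φ, hφ⟩ : ∃ φ : Dual ℚ_[ℓ] V,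
      φ (((A.ρ g - A.ψ g • (1 : V →ₗ[ℚ_[ℓ]] V)) ^ finrank ℚ_[ℓ] W) x) ≠ 0 := by
    by_contra hcon
    push Not at hcon
    exact hne ((Module.forall_dual_apply_eq_zero_iff ℚ_[ℓ] _).1 hcon)
  let O : Set G := (U : Set G) ∩
    {g | φ (((A.ρ g - A.ψ g • (1 : V →ₗ[ℚ_[ℓ]] V)) ^ finrank ℚ_[ℓ] W) x) ≠ 0}
  have hO : IsOpen O := hU.inter
    (isOpen_ne_fun (A.continuous_pow_sub (finrank ℚ_[ℓ] W) φ x) continuous_const)
  obtain ⟨p, hp, hpS, σ, hσ, hσU, hσO⟩ := exists_frob O hO ⟨g, hg, hφ⟩ A.S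
  obtain ⟨h1, h2⟩ := hUn _ hσU
  have h3 := A.frob_charpoly hj hW hiso hk hk2 hp hpS hσ h1 h2
  apply hσO
  have h4 := LinearMap.aeval_self_charpoly ((A.ρ σ⁻¹).restrict (hW σ⁻¹))
  rw [h3, map_pow, map_sub, aeval_X, aeval_C, Algebra.algebraMap_eq_smul_one] at h4
  have h5 : ∀ (m : ℕ) (y : W), ((((A.ρ σ⁻¹).restrict (hW σ⁻¹) - A.ψ σ⁻¹ • 1) ^ m) y : V) =
      ((A.ρ σ⁻¹ - A.ψ σ⁻¹ • (1 : V →ₗ[ℚ_[ℓ]] V)) ^ m) (y : V) := by
    intro m
    induction m with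
    | zero => intro y; rfl
    | succ m ih =>
      intro y
      rw [pow_succ, pow_succ, Module.End.mul_apply, Module.End.mul_apply, ih]
      rfl
  have h6 := h5 (finrank ℚ_[ℓ] W) ⟨x, hx⟩
  rw [h4] at h6
  rw [← h6]
  simp

end K3Type

end Pool.Agent.H849.K3
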