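import Mathlib

/-!
# Roots of polynomials `p X ^ n + …` and valuations
-/

set_option autoImplicit false

namespace Pool.Agent.H849.K3

open Polynomial

section Valuation

variable {F : Type*} [Field F] (A : ValuationSubring F)

/-- the large part of an element -/
noncomputable def big (y : F) : F := by
  classical exact if y ∈ A then 1 else y

theorem big_of_mem {y : F} (h : y ∈ A) : big A y = 1 := by
  classical
  unfold big
  rw [if_pos h]

theorem big_of_not_mem {y : F} (h : y ∉ A) : big A y = y := by
  classical
  unfold big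
  rw [if_neg h]

theorem one_le_valuation_big (y : F) : 1 ≤ A.valuation (big A y) := by
  by_cases h : y ∈ A
  · rw [big_of_mem A h, map_one]
  · rw [big_of_not_mem A h]
    exact le_of_lt (not_le.1 fun h' => h ((A.valuation_le_one_iff y).1 h'))

theorem one_lt_valuation {y : F} (h : y ∉ A) : 1 < A.valuation y :=
  not_le.1 fun h' => h ((A.valuation_le_one_iff y).1 h')

theorem one_le_prod_big (s : Multiset F) : 1 ≤ A.valuation ((s.map (big A)).prod) := by
  induction s using Multiset.induction_on with
  | empty => simp
  | cons a s ih =>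
    rw [Multiset.map_cons, Multiset.prod_cons, map_mul]
    exact one_le_mul (one_le_valuation_big A a) ih

theorem forall_mem_of_prod_big_le {s : Multiset F}
    (h : A.valuation ((s.map (big A)).prod) ≤ 1) : ∀ y ∈ s, y ∈ A := by
  intro y hy
  by_contra hyA
  obtain ⟨t, rfl⟩ := Multiset.exists_cons_of_mem hy
  rw [Multiset.map_cons, Multiset.prod_cons, map_mul, big_of_not_mem A hyA] at h
  have h1 := one_lt_valuation A hyA
  have h2 := one_le_prod_big A t
  have h3 : 1 < A.valuation y * A.valuation ((t.map (big A)).prod) := by
    calc (1 : A.ValueGroup) < A.valuation y := h1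
      _ = A.valuation y * 1 := (mul_one _).symm
      _ ≤ A.valuation y * A.valuation ((t.map (big A)).prod) := mul_le_mul_right h2 _
  exact absurd h (not_le.2 h3)

/-- a product of linear factors is the product of the large roots times a primitive polynomial -/
theorem exists_primitive (s : Multiset F) : ∃ g : A[X],
    g.map (IsLocalRing.residue A) ≠ 0 ∧
    (s.map fun y => X - C y).prod = C ((s.map (big A)).prod) * g.map (algebraMap A F) := by
  induction s using Multiset.induction_on with
  | empty =>
    refine ⟨1, ?_, by simp⟩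
    simp
  | cons a s ih =>
    obtain ⟨g, hg, he⟩ := ih
    by_cases ha : a ∈ A
    · refine ⟨(X - C ⟨a, ha⟩) * g, ?_, ?_⟩
      · rw [Polynomial.map_mul]
        refine mul_ne_zero ?_ hg
        rw [Polynomial.map_sub, map_X, map_C]
        exact X_sub_C_ne_zero _
      · rw [Multiset.map_cons, Multiset.prod_cons, he, Multiset.map_cons, Multiset.prod_cons,
          big_of_mem A ha, one_mul, Polynomial.map_mul, Polynomial.map_sub, map_X, map_C]
        have : algebraMap A F ⟨a, ha⟩ = a := rfl
        rw [this]
        ring
    · have hinv : a⁻¹ ∈ A := (A.mem_or_inv_mem a).resolve_left ha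
      have ha0 : a ≠ 0 := fun h => ha (h ▸ A.zero_mem)
      refine ⟨(C ⟨a⁻¹, hinv⟩ * X - 1) * g, ?_, ?_⟩
      · rw [Polynomial.map_mul]
        refine mul_ne_zero ?_ hg
        rw [Polynomial.map_sub, Polynomial.map_mul, map_X, map_C, Polynomial.map_one]
        intro h0
        have h1 := congrArg (fun q => Polynomial.coeff q 0) h0
        simp at h1
      · rw [Multiset.map_cons, Multiset.prod_cons, he, Multiset.map_cons, Multiset.prod_cons,
          big_of_not_mem A ha, Polynomial.map_mul, Polynomial.map_sub, Polynomial.map_mul, map_X,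
          map_C, Polynomial.map_one]
        have : algebraMap A F ⟨a⁻¹, hinv⟩ = a⁻¹ := rfl
        rw [this, C_mul]
        have h2 : C a * C a⁻¹ = (1 : F[X]) := by rw [← C_mul, mul_inv_cancel₀ ha0, C_1]
        linear_combination (-(C ((s.map (big A)).prod) * g.map (algebraMap A F) * X)) * h2

/-- **Gauss.** If `c ∏ (X - y)` has coefficients in the valuation ring then `c` times the product of
the large roots is in the valuation ring. -/
theorem mul_prod_big_mem {c : F} {s : Multiset F} {f : A[X]}
    (hf : f.map (algebraMap A F) = C c * (s.map fun y => X - C y).prod) :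
    c * (s.map (big A)).prod ∈ A := by
  obtain ⟨g, hg, he⟩ := exists_primitive A s
  obtain ⟨k, hk⟩ : ∃ k, (g.map (IsLocalRing.residue A)).coeff k ≠ 0 := by
    by_contra hcon
    push Not at hcon
    exact hg (Polynomial.ext fun k => by rw [hcon k, coeff_zero])
  rw [coeff_map] at hk
  have hu : IsUnit (g.coeff k) := by
    rw [← IsLocalRing.notMem_maximalIdeal, ← IsLocalRing.residue_eq_zero_iff]
    exact hk
  obtain ⟨u, hu⟩ := hu
  have h1 := congrArg (fun q => Polynomial.coeff q k) hf
  simp only [he] at h1
  rw [← mul_assoc, ← C_mul, coeff_C_mul, coeff_map, coeff_map, ← hu] at h1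
  have h2 : c * (s.map (big A)).prod = algebraMap A F (f.coeff k * (u⁻¹ : Aˣ)) := by
    rw [map_mul, h1, mul_assoc, ← map_mul, Units.mul_inv, map_one, mul_one]
  rw [h2]
  exact (f.coeff k * (u⁻¹ : Aˣ)).2

end Valuation

section Integral

variable {Ω : Type*} [Field Ω]

/-- the sum of a multiset is not larger than its largest element -/
theorem exists_valuation_sum_le (A : ValuationSubring Ω) {s : Multiset Ω} (h0 : s.sum ≠ 0) :
    ∃ y ∈ s, A.valuation s.sum ≤ A.valuation y := by
  induction s using Multiset.induction_on with
  | empty => simp at h0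
  | cons a s ih =>
    rw [Multiset.sum_cons] at h0 ⊢
    by_cases hs : s.sum = 0
    · refine ⟨a, Multiset.mem_cons_self _ _, ?_⟩
      rw [hs, add_zero]
    · obtain ⟨y, hy, hle⟩ := ih hs
      rcases le_total (A.valuation a) (A.valuation y) with h | h
      · refine ⟨y, Multiset.mem_cons_of_mem hy, (A.valuation.map_add_le h hle)⟩
      · exact ⟨a, Multiset.mem_cons_self _ _, A.valuation.map_add_le le_rfl (hle.trans h)⟩

theorem intCast_valuation_le (A : ValuationSubring Ω) (a : ℤ) : A.valuation (a : Ω) ≤ 1 := by
  rw [A.valuation_le_one_iff]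
  exact intCast_mem A a

/-- the main lemma: `s` are the roots (with multiplicities) of the polynomial `f` with integral
coefficients and the leading coefficient `p`, the second coefficient is not divisible by `p`, the
multiset `T` together with the inverses of its elements is a part of `s`, and the product of `T` is a
root of unity. Then the elements of `T` are algebraic integers. -/
theorem isIntegral_of_isotropic [CharZero Ω] {p : ℕ} (hp : p.Prime) {f : ℤ[X]} {s T : Multiset Ω}
    (hf : f.map (algebraMap ℤ Ω) = C (p : Ω) * (s.map fun y => X - C y).prod)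
    {a : ℤ} (ha : (a : Ω) = p * s.sum) (hpa : ¬ (p : ℤ) ∣ a) (h0 : (0 : Ω) ∉ T)
    (hT : T + T.map (fun y => y⁻¹) ≤ s) {N : ℕ} (hN : 0 < N) (hprod : T.prod ^ N = 1) :
    ∀ w ∈ T, IsIntegral ℤ w := by
  classical
  intro w hw
  by_contra hint
  -- a valuation
  let R : Subring Ω := (integralClosure ℤ Ω).toSubring
  have hwR : w ∉ R := hint
  have hclosed : IsIntegrallyClosedIn R Ω := by
    have : IsIntegrallyClosedIn (integralClosure ℤ Ω) Ω := inferInstance
    exact this
  obtain ⟨A, hRA, hwA⟩ := Subring.exists_le_valuationSubring_of_isIntegrallyClosedIn hwR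
  have hpΩ : (p : Ω) ≠ 0 := by exact_mod_cast hp.ne_zero
  -- the polynomial over the valuation ring
  have hG : (p : Ω) * (s.map (big A)).prod ∈ A := by
    apply mul_prod_big_mem A (f := f.map (algebraMap ℤ A))
    rw [Polynomial.map_map, ← hf]
    congr 1
  have hws : w ∈ s := Multiset.mem_of_le (le_trans (Multiset.le_add_right _ _) hT) hw
  -- `p` is not a unit
  have hplt : A.valuation (p : Ω) < 1 := by
    rw [lt_iff_le_and_ne]
    refine ⟨(A.valuation_le_one_iff _).2 (natCast_mem A p), fun h1 => ?_⟩
    rw [← A.valuation_le_one_iff, map_mul, h1, one_mul] at hG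
    exact hwA (forall_mem_of_prod_big_le A hG w hws)
  -- the second coefficient is a unit
  have hau : A.valuation (a : Ω) = 1 := by
    refine le_antisymm (intCast_valuation_le A a) ?_
    by_contra hlt
    rw [not_le] at hlt
    have hcop : IsCoprime (p : ℤ) a :=
      (Nat.prime_iff_prime_int.1 hp).coprime_iff_not_dvd.2 hpa
    obtain ⟨u, v, huv⟩ := hcop
    have h1 : A.valuation ((u * p + v * a : ℤ) : Ω) < 1 := by
      push_cast
      refine A.valuation.map_add_lt ?_ ?_
      · rw [map_mul]
        exact lt_of_le_of_lt (mul_le_of_le_one_left' (intCast_valuation_le A u)) hplt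
      · rw [map_mul]
        exact lt_of_le_of_lt (mul_le_of_le_one_left' (intCast_valuation_le A v)) hlt
    rw [huv, Int.cast_one, map_one] at h1
    exact lt_irrefl _ h1
  have hsum : s.sum ≠ 0 := by
    intro h
    rw [ha, h, mul_zero, map_zero] at hau
    exact zero_ne_one hau
  obtain ⟨y₀, hy₀, hle⟩ := exists_valuation_sum_le A hsum
  have hy₀1 : 1 ≤ A.valuation (p : Ω) * A.valuation y₀ := by
    rw [← hau, ha, map_mul]
    exact mul_le_mul_right hle _
  have hy₀A : y₀ ∉ A := by
    intro h
    have h2 := lt_of_le_of_lt (mul_le_of_le_one_right' ((A.valuation_le_one_iff y₀).2 h)) hplt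
    exact absurd hy₀1 (not_le.2 h2)
  -- all the other roots are in the valuation ring
  have hother : ∀ y ∈ s.erase y₀, y ∈ A := by
    apply forall_mem_of_prod_big_le
    have h1 := hG
    rw [← A.valuation_le_one_iff, ← Multiset.cons_erase hy₀, Multiset.map_cons, Multiset.prod_cons,
      big_of_not_mem A hy₀A, map_mul, map_mul, ← mul_assoc] at h1
    refine le_trans ?_ h1
    calc A.valuation (((s.erase y₀).map (big A)).prod)
        = 1 * A.valuation (((s.erase y₀).map (big A)).prod) := (one_mul _).symm
      _ ≤ _ := mul_le_mul_left hy₀1 _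
  -- so `w = y₀`
  have hwy : w = y₀ := by
    by_contra hne
    exact hwA (hother w ((Multiset.mem_erase_of_ne hne).2 hws))
  subst hwy
  have hle2 : T.erase w + T.map (fun y => y⁻¹) ≤ s.erase w := by
    have h1 := Multiset.erase_le_erase w hT
    rwa [Multiset.erase_add_left_pos _ hw] at h1
  have hunit : ∀ y ∈ T.erase w, A.valuation y = 1 := by
    intro y hy
    have hyT : y ∈ T := Multiset.mem_of_mem_erase hy
    have h1 : y ∈ A := hother y (Multiset.mem_of_le hle2 (Multiset.mem_add.2 (Or.inl hy)))
    have h2 : y⁻¹ ∈ A := hother _ (Multiset.mem_of_le hle2 (Multiset.mem_add.2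
      (Or.inr (Multiset.mem_map_of_mem _ hyT))))
    refine le_antisymm ((A.valuation_le_one_iff _).2 h1) ?_
    have h3 := (A.valuation_le_one_iff _).2 h2
    rw [map_inv₀] at h3
    have hy0 : A.valuation y ≠ 0 := (A.valuation.ne_zero_iff).2 fun h => h0 (h ▸ hyT)
    exact (inv_le_one₀ (zero_lt_iff.2 hy0)).1 h3
  have hprod1 : ∀ t : Multiset Ω, (∀ y ∈ t, A.valuation y = 1) → A.valuation t.prod = 1 := by
    intro t
    induction t using Multiset.induction_on with
    | empty => simp
    | cons b t ih =>
      intro h
      rw [Multiset.prod_cons, map_mul, h b (Multiset.mem_cons_self _ _),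
        ih fun y hy => h y (Multiset.mem_cons_of_mem hy), one_mul]
  have h1 : A.valuation T.prod = A.valuation w := by
    rw [← Multiset.cons_erase hw, Multiset.prod_cons, map_mul, hprod1 _ hunit, mul_one]
  have h2 : A.valuation w ^ N = 1 := by
    rw [← h1, ← map_pow, hprod, map_one]
  have h3 : 1 < A.valuation w ^ N := one_lt_pow₀ (one_lt_valuation A hwA) hN.ne'
  exact absurd h2 h3.ne'

end Integral

end Pool.Agent.H849.K3
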