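import Pool.Graph.R_seed8.Y142.Core
import Pool.Agent.H849.K3.Val

/-!
# Roots of unity close to one, and algebraic numbers of absolute value one
-/

set_option autoImplicit false

namespace Pool.Agent.H849.K3

open Polynomial Module

variable {ℓ : ℕ} [hℓ : Fact ℓ.Prime]

theorem norm_natCast_alg (q : ℕ) : ‖(q : PadicAlgCl ℓ)‖ = ‖(q : ℚ_[ℓ])‖ := by
  have h : ((q : ℚ_[ℓ]) : PadicAlgCl ℓ) = (q : PadicAlgCl ℓ) := by simp
  rw [← h, PadicAlgCl.norm_extends]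

theorem norm_intCast_alg (q : ℤ) : ‖(q : PadicAlgCl ℓ)‖ = ‖(q : ℚ_[ℓ])‖ := by
  have h : ((q : ℚ_[ℓ]) : PadicAlgCl ℓ) = (q : PadicAlgCl ℓ) := by simp
  rw [← h, PadicAlgCl.norm_extends]

theorem norm_prime_ge {q : ℕ} (hq : q.Prime) : ((ℓ : ℝ))⁻¹ ≤ ‖(q : ℚ_[ℓ])‖ := by
  by_cases h : q = ℓ
  · rw [h, Padic.norm_p]
  · have h1 : ‖(q : ℚ_[ℓ])‖ = 1 := by
      rw [Padic.norm_natCast_eq_one_iff]
      exact (Nat.coprime_primes hℓ.out hq).2 (Ne.symm h)
    rw [h1]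
    exact inv_le_one_of_one_le₀ (by exact_mod_cast hℓ.out.one_lt.le)

theorem pow_near {ε : ℝ} (h0 : 0 ≤ ε) (h1 : ε ≤ 1) {z : PadicAlgCl ℓ} (h : ‖z - 1‖ ≤ ε) (k : ℕ) :
    ‖z ^ k - 1‖ ≤ ε := by
  induction k with
  | zero => simpa using h0
  | succ k ih =>
    rw [pow_succ]
    exact Pool.Agent.Y142.near_mul h1 ih h

/-- a root of unity close to one is one -/
theorem eq_one_of_near {z : PadicAlgCl ℓ} {N : ℕ} (hN : 0 < N) (hz : z ^ N = 1) {ε : ℝ}
    (h0 : 0 ≤ ε) (hε : ε < ((ℓ : ℝ))⁻¹) (h : ‖z - 1‖ ≤ ε) : z = 1 := by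
  have hε1 : ε ≤ 1 := hε.le.trans (inv_le_one_of_one_le₀ (by exact_mod_cast hℓ.out.one_lt.le))
  by_contra hne
  have hfin : IsOfFinOrder z := isOfFinOrder_iff_pow_eq_one.2 ⟨N, hN, hz⟩
  have hm : orderOf z ≠ 1 := fun h => hne (orderOf_eq_one_iff.1 h)
  have hm0 : 0 < orderOf z := hfin.orderOf_pos
  obtain ⟨q, hq, hqm⟩ := Nat.exists_prime_and_dvd hm
  obtain ⟨m, hm'⟩ := hqm
  set y := z ^ m with hy
  have hyq : y ^ q = 1 := by
    rw [hy, ← pow_mul, mul_comm m q, ← hm', pow_orderOf_eq_one]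
  have hy1 : y ≠ 1 := by
    intro h1
    have h2 := orderOf_dvd_of_pow_eq_one h1
    have h3 := Nat.le_of_dvd (Nat.pos_of_ne_zero (by rintro rfl; omega)) h2
    rw [hm'] at h3
    have h4 : 0 < m := Nat.pos_of_ne_zero (by rintro rfl; omega)
    have h5 := hq.two_le
    nlinarith
  have hsum : ∑ i ∈ Finset.range q, y ^ i = 0 := by
    have h1 := mul_geom_sum y q
    rw [hyq, sub_self] at h1
    exact (mul_eq_zero.1 h1).resolve_left (sub_ne_zero.2 hy1)
  have hynear : ‖y - 1‖ ≤ ε := pow_near h0 hε1 h m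
  have h2 : ((q : ℕ) : PadicAlgCl ℓ) = -∑ i ∈ Finset.range q, (y ^ i - 1) := by
    rw [Finset.sum_sub_distrib, hsum]
    simp
  have h3 : ‖((q : ℕ) : PadicAlgCl ℓ)‖ ≤ ε := by
    rw [h2, norm_neg]
    refine IsUltrametricDist.norm_sum_le_of_forall_le_of_nonneg h0 fun i _ => ?_
    exact pow_near h0 hε1 hynear i
  rw [norm_natCast_alg] at h3
  exact absurd (norm_prime_ge hq) (not_le.2 (lt_of_le_of_lt h3 hε))

/-- Kronecker's theorem -/
theorem exists_pow_eq_one {Ω : Type*} [Field Ω] [CharZero Ω] {w : Ω} (hw : IsIntegral ℤ w) {f : ℤ[X]}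
    (hf : aeval w f = 0) (h1 : ∀ z : ℂ, aeval z f = 0 → ‖z‖ = 1) : ∃ N : ℕ, 0 < N ∧ w ^ N = 1 := by
  let K := IntermediateField.adjoin ℚ ({w} : Set Ω)
  have hfd : FiniteDimensional ℚ K := IntermediateField.adjoin.finiteDimensional hw.tower_top
  have hnf : NumberField K := { }
  let wK : K := ⟨w, IntermediateField.mem_adjoin_simple_self ℚ w⟩
  have hinj : Function.Injective (algebraMap K Ω) := (algebraMap K Ω).injective
  have hint : IsIntegral ℤ wK := (isIntegral_algebraMap_iff hinj).1 hw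
  obtain ⟨N, hN, hpow⟩ := NumberField.Embeddings.pow_eq_one_of_norm_eq_one K ℂ hint (by
    intro φ
    apply h1
    have h3 : aeval wK f = 0 := by
      apply hinj
      rw [map_zero, ← hf]
      exact (aeval_algebraMap_apply Ω wK f).symm
    have h4 : aeval (φ wK) f = φ (aeval wK f) := aeval_algHom_apply (φ.toIntAlgHom) wK f
    rw [h4, h3, map_zero])
  refine ⟨N, hN, ?_⟩
  have := congrArg (algebraMap K Ω) hpow
  rw [map_pow, map_one] at this
  exact this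

end Pool.Agent.H849.K3
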