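import Pool.Agent.H849.K3.Tate

/-!
# The criterion of semisimplicity
-/

set_option autoImplicit false

namespace Pool.Agent.H849.K3

open Polynomial Module NumberField Filter Topology IsDedekindDomain
open Pool.Agent.Y142 (dualPoly charpoly_eq_mul eval_dualPoly)

variable {ℓ j : ℕ} [hℓ : Fact ℓ.Prime] {V : Type} [AddCommGroup V] [Module ℚ_[ℓ] V]
  [FiniteDimensional ℚ_[ℓ] V]

namespace K3Type

variable (A : K3Type ℓ j V)

theorem psi_mul_inv (g : G) : A.ψ g * A.ψ g⁻¹ = 1 := by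
  rw [← map_mul, mul_inv_cancel, map_one]

theorem rho_mul_apply (g h : G) (x : V) : A.ρ (g * h) x = A.ρ g (A.ρ h x) := by
  rw [map_mul]
  rfl

theorem rho_inv_apply (g : G) (x : V) : A.ρ g (A.ρ g⁻¹ x) = x := by
  rw [← rho_mul_apply, mul_inv_cancel, map_one]
  rfl

theorem rho_inv_apply' (g : G) (x : V) : A.ρ g⁻¹ (A.ρ g x) = x := by
  rw [← rho_mul_apply, inv_mul_cancel, map_one]
  rfl

/-- the orthogonal complement of a stable subspace is stable -/
theorem orth_stable {W : Submodule ℚ_[ℓ] V} (hW : A.IsStable W) :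
    A.IsStable (A.B.orthogonal W) := by
  intro g x hx y hy
  have h1 : A.B (A.ρ g (A.ρ g⁻¹ y)) (A.ρ g x) = 0 := by
    rw [A.similitude]
    have h2 : A.B (A.ρ g⁻¹ y) x = 0 := hx _ (hW g⁻¹ y hy)
    rw [h2, mul_zero]
  rw [rho_inv_apply] at h1
  exact h1

theorem inf_stable {W W' : Submodule ℚ_[ℓ] V} (hW : A.IsStable W) (hW' : A.IsStable W') :
    A.IsStable (W ⊓ W') := fun g x hx => ⟨hW g x hx.1, hW' g x hx.2⟩

theorem sup_stable {W W' : Submodule ℚ_[ℓ] V} (hW : A.IsStable W) (hW' : A.IsStable W') :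
    A.IsStable (W ⊔ W') := by
  intro g x hx
  obtain ⟨y, hy, z, hz, rfl⟩ := Submodule.mem_sup.1 hx
  rw [map_add]
  exact Submodule.add_mem_sup (hW g y hy) (hW' g z hz)

theorem tate_stable : A.IsStable A.tate := by
  rintro g x ⟨U, hU, hx⟩
  obtain ⟨N, hN, hNo, hNU, -⟩ := exists_normal U hU
  refine ⟨N, hNo, fun h hh => ?_⟩
  have h1 : g⁻¹ * h * g ∈ N := by
    have := hN.conj_mem h hh g⁻¹
    rwa [inv_inv] at this
  have h2 := hx _ (hNU h1)
  rw [rho_mul_apply, rho_mul_apply] at h2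
  have h3 := congrArg (A.ρ g) h2
  rw [rho_inv_apply, map_smul] at h3
  rw [h3]
  congr 1
  rw [map_mul, map_mul, mul_comm, ← mul_assoc, psi_mul_inv, one_mul]

/-- one open normal subgroup acts by the character on all Tate classes -/
theorem exists_tate_subgroup : ∃ N : Subgroup G, N.Normal ∧ IsOpen (N : Set G) ∧ N.FiniteIndex ∧
    ∀ g ∈ N, ∀ x ∈ A.tate, A.ρ g x = A.ψ g • x := by
  classical
  let b := Module.finBasis ℚ_[ℓ] A.tate
  choose U hU hUb using fun i => (b i).2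
  have hopen : IsOpen ((⨅ i, U i : Subgroup G) : Set G) := by
    rw [Subgroup.coe_iInf]
    exact isOpen_iInter_of_finite hU
  obtain ⟨N, hN, hNo, hNU, hNf⟩ := exists_normal _ hopen
  refine ⟨N, hN, hNo, hNf, fun g hg x hx => ?_⟩
  have h1 := b.sum_repr ⟨x, hx⟩
  have h2 : x = ∑ i, b.repr ⟨x, hx⟩ i • (b i : V) := by
    have h3 := congrArg A.tate.subtype h1
    rw [map_sum] at h3
    exact h3.symm
  rw [h2, map_sum, Finset.smul_sum]
  refine Finset.sum_congr rfl fun i _ => ?_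
  have h4 : g ∈ U i := by
    have h5 := hNU hg
    rw [Subgroup.mem_iInf] at h5
    exact h5 i
  rw [map_smul, hUb i g h4, smul_comm]

/-- a stable isotropic subspace different from zero contains Tate classes different from zero -/
theorem inf_tate_ne_bot (hj : 0 < j) {W : Submodule ℚ_[ℓ] V} (hW : A.IsStable W)
    (hiso : W ≤ A.B.orthogonal W) (hne : W ≠ ⊥) : W ⊓ A.tate ≠ ⊥ := by
  have hW' : ∀ g, W ≤ W.comap (A.ρ g) := fun g x hx => hW g x hx
  obtain ⟨U, hU, hu⟩ := A.isotropic_unipotent hj hW' hiso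
  have hnt : Nontrivial W := Submodule.nontrivial_iff_ne_bot.2 hne
  let τ : U →* Module.End ℚ_[ℓ] W :=
    { toFun := fun g => A.ψ (g : G)⁻¹ • (A.ρ g).restrict (hW' g)
      map_one' := by
        apply LinearMap.ext
        intro x
        apply Subtype.ext
        simp
      map_mul' := by
        intro g h
        apply LinearMap.ext
        intro x
        apply Subtype.ext
        simp only [Subgroup.coe_mul, mul_inv_rev, map_mul, LinearMap.smul_apply,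
          Module.End.mul_apply, Submodule.coe_smul, LinearMap.coe_restrict_apply, map_smul,
          smul_smul] }
  have hτ : ∀ (g : U) (x : W), ((τ g x : W) : V) = A.ψ (g : G)⁻¹ • A.ρ g x := fun g x => rfl
  have hτ1 : ∀ (g : U) (k : ℕ) (x : W), ((((τ g - 1) ^ k) x : W) : V) =
      A.ψ (g : G)⁻¹ ^ k • ((A.ρ g - A.ψ g • (1 : V →ₗ[ℚ_[ℓ]] V)) ^ k) (x : V) := by
    intro g k
    induction k with
    | zero => intro x; simp
    | succ k ih =>
      intro x
      rw [pow_succ, pow_succ, pow_succ, Module.End.mul_apply, Module.End.mul_apply, ih]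
      have h1 : (((τ g - 1) x : W) : V) =
          A.ψ (g : G)⁻¹ • ((A.ρ g - A.ψ g • (1 : V →ₗ[ℚ_[ℓ]] V)) (x : V)) := by
        rw [LinearMap.sub_apply, Submodule.coe_sub, hτ, LinearMap.sub_apply, smul_sub]
        congr 1
        rw [LinearMap.smul_apply, smul_smul, mul_comm, psi_mul_inv, one_smul]
        rfl
      rw [h1, map_smul, smul_smul]
  obtain ⟨x, hx, hfix⟩ := kolchin τ (by
    intro g
    refine ⟨finrank ℚ_[ℓ] W, ?_⟩
    apply LinearMap.ext
    intro x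
    apply Subtype.ext
    rw [hτ1, hu g g.2 x x.2, smul_zero]
    rfl)
  intro hbot
  apply hx
  apply Subtype.ext
  have h1 : (x : V) ∈ W ⊓ A.tate := by
    refine ⟨x.2, U, hU, fun g hg => ?_⟩
    have h2 : ((τ ⟨g, hg⟩ x : W) : V) = x := congrArg (fun y : W => (y : V)) (hfix ⟨g, hg⟩)
    rw [hτ] at h2
    have h3 := congrArg (fun y => A.ψ g • y) h2
    simp only [smul_smul] at h3
    rw [psi_mul_inv, one_smul] at h3
    exact h3
  rw [hbot, Submodule.mem_bot] at h1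
  exact h1

/-- the space of Tate classes is semisimple -/
theorem tate_compl {W : Submodule ℚ_[ℓ] V} (hW : A.IsStable W) (hWT : W ≤ A.tate) :
    ∃ C, A.IsStable C ∧ C ≤ A.tate ∧ W ⊓ C = ⊥ ∧ W ⊔ C = A.tate := by
  classical
  obtain ⟨N, hN, -, hNf, hNT⟩ := A.exists_tate_subgroup
  obtain ⟨π₀, hπ₀⟩ := W.exists_isCompl
  obtain ⟨q, hq⟩ : ∃ q : V →ₗ[ℚ_[ℓ]] V, (∀ x, q x ∈ W) ∧ ∀ x ∈ W, q x = x := by
    refine ⟨W.subtype.comp (W.projectionOnto π₀ hπ₀), fun x => (W.projectionOnto π₀ hπ₀ x).2, ?_⟩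
    intro x hx
    have := Submodule.projectionOnto_apply_left hπ₀ ⟨x, hx⟩
    rw [LinearMap.comp_apply, this]
    rfl
  -- the operator attached to an element of the group
  let F : G → V →ₗ[ℚ_[ℓ]] V := fun g => (A.ρ g).comp (q.comp (A.ρ g⁻¹))
  have hF : ∀ g x, F g x = A.ρ g (q (A.ρ g⁻¹ x)) := fun g x => rfl
  have hFW : ∀ g x, F g x ∈ W := fun g x => hW g _ (hq.1 _)
  have hFw : ∀ g, ∀ x ∈ W, F g x = x := by
    intro g x hx
    rw [hF, hq.2 _ (hW g⁻¹ x hx), rho_inv_apply]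
  have hFN : ∀ g, ∀ n ∈ N, ∀ x ∈ A.tate, F (g * n) x = F g x := by
    intro g n hn x hx
    rw [hF, hF, mul_inv_rev, rho_mul_apply, rho_mul_apply, hNT n⁻¹ (N.inv_mem hn) _
      (A.tate_stable g⁻¹ x hx), map_smul, map_smul, hNT n hn _ (hWT (hq.1 _)), smul_smul,
      mul_comm, psi_mul_inv, one_smul]
  have hFh : ∀ h g x, A.ρ h (F g x) = F (h * g) (A.ρ h x) := by
    intro h g x
    rw [hF, hF, mul_inv_rev, rho_mul_apply, rho_mul_apply, rho_inv_apply']
  have hfin : Finite (G ⧸ N) := Subgroup.finite_quotient_of_finiteIndex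
  let _ : Fintype (G ⧸ N) := Fintype.ofFinite _
  let π : V →ₗ[ℚ_[ℓ]] V := ∑ c : G ⧸ N, F c.out
  have hπ : ∀ x, π x = ∑ c : G ⧸ N, F c.out x := fun x => LinearMap.sum_apply _ _ _
  have hπW : ∀ x, π x ∈ W := by
    intro x
    rw [hπ]
    exact Submodule.sum_mem _ fun c _ => hFW _ _
  have hπw : ∀ x ∈ W, π x = (Fintype.card (G ⧸ N) : ℚ_[ℓ]) • x := by
    intro x hx
    rw [hπ, Finset.sum_congr rfl fun c _ => hFw c.out x hx, Finset.sum_const, Finset.card_univ,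
      Nat.cast_smul_eq_nsmul]
  have hπρ : ∀ h, ∀ x ∈ A.tate, A.ρ h (π x) = π (A.ρ h x) := by
    intro h x hx
    rw [hπ, hπ, map_sum]
    have h1 : ∀ c : G ⧸ N, A.ρ h (F c.out x) = F (h • c).out (A.ρ h x) := by
      intro c
      rw [hFh]
      obtain ⟨n, hn⟩ := QuotientGroup.mk_out_eq_mul N (h * c.out)
      have h2 : h • c = ((h * c.out : G) : G ⧸ N) := by
        conv_lhs => rw [← c.out_eq]
        rfl
      rw [h2, hn, hFN _ n n.2 _ (A.tate_stable h x hx)]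
    rw [Finset.sum_congr rfl fun c _ => h1 c]
    exact Fintype.sum_equiv (MulAction.toPerm h) _ _ fun c => rfl
  have hm : (Fintype.card (G ⧸ N) : ℚ_[ℓ]) ≠ 0 := by
    have : 0 < Fintype.card (G ⧸ N) := Fintype.card_pos_iff.2 ⟨((1 : G) : G ⧸ N)⟩
    exact_mod_cast this.ne'
  refine ⟨A.tate ⊓ LinearMap.ker π, ?_, inf_le_left, ?_, ?_⟩
  · rintro g x ⟨hx, hx'⟩
    have h0 : π x = 0 := hx'
    refine ⟨A.tate_stable g x hx, ?_⟩
    show π (A.ρ g x) = 0
    rw [← hπρ g x hx, h0, map_zero]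
  · rw [eq_bot_iff]
    rintro x ⟨hx, -, hx'⟩
    have h0 : π x = 0 := hx'
    rw [hπw x hx] at h0
    exact (Submodule.mem_bot _).2 ((smul_eq_zero.1 h0).resolve_left hm)
  · apply le_antisymm (sup_le hWT inf_le_left)
    intro x hx
    have h1 : x = (Fintype.card (G ⧸ N) : ℚ_[ℓ])⁻¹ • π x +
        (x - (Fintype.card (G ⧸ N) : ℚ_[ℓ])⁻¹ • π x) := by abel
    rw [h1]
    have h2 : (Fintype.card (G ⧸ N) : ℚ_[ℓ])⁻¹ • π x ∈ W := W.smul_mem _ (hπW x)
    refine Submodule.add_mem_sup h2 ⟨A.tate.sub_mem hx (hWT h2), ?_⟩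
    show π (x - (Fintype.card (G ⧸ N) : ℚ_[ℓ])⁻¹ • π x) = 0
    rw [map_sub, map_smul, hπw _ (hπW x), smul_smul, inv_mul_cancel₀ hm, one_smul, sub_self]

/-- a direct sum of two stable subspaces with stable complements has stable complements -/
theorem semisimple_of_decomp {V₁ V₂ : Submodule ℚ_[ℓ] V} (h₂ : A.IsStable V₂) (h₁ : A.IsStable V₁)
    (hV : IsCompl V₁ V₂)
    (c₁ : ∀ W, A.IsStable W → W ≤ V₁ → ∃ C, A.IsStable C ∧ C ≤ V₁ ∧ W ⊓ C = ⊥ ∧ W ⊔ C = V₁)
    (c₂ : ∀ W, A.IsStable W → W ≤ V₂ → ∃ C, A.IsStable C ∧ C ≤ V₂ ∧ W ⊓ C = ⊥ ∧ W ⊔ C = V₂) :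
    A.IsSemisimple := by
  intro U hU
  obtain ⟨C₁, hC₁, hC₁V, hd₁, hs₁⟩ := c₁ (U ⊓ V₁) (A.inf_stable hU h₁) inf_le_right
  obtain ⟨C₂, hC₂, hC₂V, hd₂, hs₂⟩ := c₂ ((U ⊔ V₁) ⊓ V₂)
    (A.inf_stable (A.sup_stable hU h₁) h₂) inf_le_right
  refine ⟨C₁ ⊔ C₂, A.sup_stable hC₁ hC₂, ?_⟩
  constructor
  · rw [disjoint_iff, eq_bot_iff]
    rintro u ⟨hu, hu'⟩
    obtain ⟨x, hx, y, hy, rfl⟩ := Submodule.mem_sup.1 hu'
    have h1 : y ∈ (U ⊔ V₁) ⊓ V₂ := by
      refine ⟨?_, hC₂V hy⟩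
      have h2 : y = (x + y) + (-x) := by abel
      rw [h2]
      exact Submodule.add_mem_sup hu (V₁.neg_mem (hC₁V hx))
    have h3 : y ∈ ((U ⊔ V₁) ⊓ V₂) ⊓ C₂ := ⟨h1, hy⟩
    rw [hd₂, Submodule.mem_bot] at h3
    subst h3
    rw [add_zero] at hu
    have h4 : x ∈ (U ⊓ V₁) ⊓ C₁ := ⟨⟨hu, hC₁V hx⟩, hx⟩
    rw [hd₁, Submodule.mem_bot] at h4
    rw [h4, add_zero]
    exact Submodule.zero_mem _
  · rw [codisjoint_iff, eq_top_iff]
    have h1 : V₁ ≤ U ⊔ (C₁ ⊔ C₂) := by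
      calc V₁ = (U ⊓ V₁) ⊔ C₁ := hs₁.symm
        _ ≤ U ⊔ (C₁ ⊔ C₂) := sup_le_sup inf_le_left le_sup_left
    have h2 : V₂ ≤ U ⊔ (C₁ ⊔ C₂) := by
      calc V₂ = ((U ⊔ V₁) ⊓ V₂) ⊔ C₂ := hs₂.symm
        _ ≤ (U ⊔ V₁) ⊔ C₂ := sup_le_sup inf_le_left le_rfl
        _ ≤ U ⊔ (C₁ ⊔ C₂) := sup_le (sup_le le_sup_left h1) (le_sup_right.trans le_sup_right)
    rw [← hV.sup_eq_top]
    exact sup_le h1 h2

/-- the first half of the criterion -/
theorem semisimple_of_nondegenerate (hj : 0 < j)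
    (h : ∀ x ∈ A.tate, (∀ y ∈ A.tate, A.B x y = 0) → x = 0) : A.IsSemisimple := by
  have hrefl := isRefl_of A.B A.symm_or_alt
  have hdis : A.tate ⊓ A.B.orthogonal A.tate = ⊥ := by
    rw [eq_bot_iff]
    rintro x ⟨hx, hx'⟩
    exact (Submodule.mem_bot _).2 (h x hx fun y hy => hrefl _ _ (hx' y hy))
  have hcompl : IsCompl A.tate (A.B.orthogonal A.tate) := by
    rw [LinearMap.BilinForm.isCompl_orthogonal_iff_disjoint hrefl, disjoint_iff]
    exact hdis
  refine A.semisimple_of_decomp (A.orth_stable A.tate_stable) A.tate_stable hcompl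
    (fun W hW hWT => A.tate_compl hW hWT) ?_
  intro W hW hWT
  have h1 : W ⊓ A.B.orthogonal W = ⊥ := by
    by_contra hne
    apply A.inf_tate_ne_bot hj (A.inf_stable hW (A.orth_stable hW)) ?_ hne
    · rw [eq_bot_iff]
      rintro x ⟨⟨hx, -⟩, hx'⟩
      rw [← hdis]
      exact ⟨hx', hWT hx⟩
    · intro x hx y hy
      exact hx.2 y hy.1
  have h2 : IsCompl W (A.B.orthogonal W) := by
    rw [LinearMap.BilinForm.isCompl_orthogonal_iff_disjoint hrefl, disjoint_iff]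
    exact h1
  refine ⟨A.B.orthogonal W ⊓ A.B.orthogonal A.tate,
    A.inf_stable (A.orth_stable hW) (A.orth_stable A.tate_stable), inf_le_right, ?_, ?_⟩
  · rw [← inf_assoc, h1, bot_inf_eq]
  · apply le_antisymm (sup_le hWT inf_le_right)
    intro x hx
    have h3 : x ∈ W ⊔ A.B.orthogonal W := by
      rw [h2.sup_eq_top]
      exact Submodule.mem_top
    obtain ⟨y, hy, z, hz, rfl⟩ := Submodule.mem_sup.1 h3
    refine Submodule.add_mem_sup hy ⟨hz, ?_⟩
    have h4 : z = (y + z) - y := by abel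
    rw [h4]
    exact Submodule.sub_mem _ hx (hWT hy)

/-- the second half of the criterion -/
theorem nondegenerate_of_semisimple (h : A.IsSemisimple) :
    ∀ x ∈ A.tate, (∀ y ∈ A.tate, A.B x y = 0) → x = 0 := by
  have hrefl := isRefl_of A.B A.symm_or_alt
  obtain ⟨N, hN, hNo, -, hNT⟩ := A.exists_tate_subgroup
  obtain ⟨C, hC, hcompl⟩ := h _ (A.orth_stable A.tate_stable)
  have hCT : C ≤ A.tate := by
    intro c hc
    refine ⟨N, hNo, fun g hg => ?_⟩
    have h1 : A.ρ g c - A.ψ g • c ∈ A.B.orthogonal A.tate ⊓ C := by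
      refine ⟨?_, C.sub_mem (hC g c hc) (C.smul_mem _ hc)⟩
      intro t ht
      show A.B t (A.ρ g c - A.ψ g • c) = 0
      have h2 : t = A.ρ g (A.ψ g⁻¹ • t) := by
        rw [map_smul, hNT g hg t ht, smul_smul, mul_comm, psi_mul_inv, one_smul]
      have h3 : A.B t (A.ρ g c) = A.ψ g * A.B t c := by
        conv_lhs => rw [h2]
        rw [A.similitude, map_smul, LinearMap.smul_apply, smul_eq_mul, pow_two]
        have := A.psi_mul_inv g
        linear_combination (A.ψ g * A.B t c) * this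
      rw [map_sub, map_smul, h3, smul_eq_mul, sub_self]
    rw [hcompl.inf_eq_bot, Submodule.mem_bot] at h1
    exact sub_eq_zero.1 h1
  intro x hx hx'
  apply A.nondegenerate.1
  intro y
  have h4 : y ∈ A.B.orthogonal A.tate ⊔ C := by
    rw [hcompl.sup_eq_top]
    exact Submodule.mem_top
  obtain ⟨z, hz, c, hc, rfl⟩ := Submodule.mem_sup.1 h4
  rw [map_add, hz x hx, hx' c (hCT hc), add_zero]

end K3Type

end Pool.Agent.H849.K3
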