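import Pool.Agent.H849.K3.Rep
import Pool.Graph.R_seed8.W401.Cheb.Frob

/-!
# Tate classes and semisimplicity
-/

set_option autoImplicit false

namespace Pool.Agent.H849.K3

open Polynomial Module NumberField Filter Topology IsDedekindDomain
open Pool.Agent.Y142 (dualPoly charpoly_eq_mul charpoly_dual charpoly_dvd_of_surjective
  injective_of_similitude)

variable {ℓ j : ℕ} [hℓ : Fact ℓ.Prime] {V : Type} [AddCommGroup V] [Module ℚ_[ℓ] V]
  [FiniteDimensional ℚ_[ℓ] V]

/-- open subgroups contain open normal subgroups of finite index -/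
theorem exists_normal (U : Subgroup G) (hU : IsOpen (U : Set G)) :
    ∃ N : Subgroup G, N.Normal ∧ IsOpen (N : Set G) ∧ N ≤ U ∧ N.FiniteIndex := by
  have h1 : (U : Set G) ∈ 𝓝 (1 : G) := hU.mem_nhds U.one_mem
  rw [krullTopology_mem_nhds_one_iff_of_normal] at h1
  obtain ⟨E, hE, hEn, hE2⟩ := h1
  have h2 : IsOpen (E.fixingSubgroup : Set G) := E.fixingSubgroup_isOpen
  have h3 : E.fixingSubgroup.FiniteIndex := by
    have h4 : Finite (G ⧸ E.fixingSubgroup) := Subgroup.quotient_finite_of_isOpen _ h2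
    exact Subgroup.finiteIndex_of_finite_quotient
  refine ⟨E.fixingSubgroup, ?_, h2, hE2, h3⟩
  rw [← IntermediateField.restrictNormalHom_ker]
  infer_instance

/-- a Frobenius element -/
theorem exists_isFrobenius (p : ℕ) (hp : p.Prime) : ∃ σ : G, IsFrobenius p σ := by
  obtain ⟨v, hv⟩ : ∃ v : HeightOneSpectrum (𝓞 ℚ), (p : 𝓞 ℚ) ∈ v.asIdeal := by
    have h1 : ¬ IsUnit (p : 𝓞 ℚ) := by
      intro h
      have h2 : IsUnit ((Rat.ringOfIntegersEquiv (p : 𝓞 ℚ)) : ℤ) := h.map Rat.ringOfIntegersEquiv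
      rw [map_natCast, Int.isUnit_iff] at h2
      have := hp.two_le
      omega
    obtain ⟨M, hM, hpM⟩ := exists_max_ideal_of_mem_nonunits h1
    refine ⟨⟨M, hM.isPrime, ?_⟩, hpM⟩
    rintro rfl
    rw [Ideal.mem_bot] at hpM
    exact hp.ne_zero (by exact_mod_cast hpM)
  obtain ⟨σ, Q, hQ, hQv, hσ⟩ := Pool.Agent.W401.Frob.exists_frob v
  obtain ⟨p', hp', hpv, hpn⟩ := Pool.Agent.R932.SQ.exists_prime (by simp) v
  have hpp : p' = p := by
    by_contra hne
    have h1 : IsCoprime (p' : ℤ) (p : ℤ) := Nat.isCoprime_iff_coprime.2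
      ((Nat.coprime_primes hp' hp).2 hne)
    obtain ⟨a, b, hab⟩ := h1
    have h2 : ((a : 𝓞 ℚ) * (p' : 𝓞 ℚ) + (b : 𝓞 ℚ) * (p : 𝓞 ℚ)) = 1 := by exact_mod_cast congrArg (fun z : ℤ => (z : 𝓞 ℚ)) hab
    apply v.isPrime.ne_top
    rw [Ideal.eq_top_iff_one, ← h2]
    exact v.asIdeal.add_mem (v.asIdeal.mul_mem_left _ hpv) (v.asIdeal.mul_mem_left _ hv)
  subst hpp
  refine ⟨σ, Q, hQ, ?_, ?_⟩
  · rw [← hQv] at hpv
    simpa using hpv
  · rw [hpn] at hσ
    exact hσ

omit [FiniteDimensional ℚ_[ℓ] V] in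
theorem isRefl_of (B : LinearMap.BilinForm ℚ_[ℓ] V) (h : B.IsSymm ∨ B.IsAlt) : B.IsRefl := by
  rcases h with h | h
  · exact h.isRefl
  · exact h.isRefl

/-- an analogue of the lemma on isotropic subspaces for two orthogonal subspaces -/
theorem charpoly_pair_dvd {F : Type*} [Field F] {V : Type*} [AddCommGroup V] [Module F V]
    [FiniteDimensional F V] {B : LinearMap.BilinForm F V} {e : V →ₗ[F] V} {s : F}
    {T R : Submodule F V} [Infinite F] (hB : B.Nondegenerate) (hs : s ≠ 0)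
    (he : ∀ x y, B (e x) (e y) = s * B x y) (hT : T ≤ T.comap e) (hR : R ≤ R.comap e)
    (hTR : T ≤ B.orthogonal R) :
    (e.restrict hT).charpoly * dualPoly s (e.restrict hR).charpoly ∣ e.charpoly := by
  have hinj : Function.Injective (e.restrict hR) := by
    intro x y hxy
    apply Subtype.ext
    apply injective_of_similitude hB hs he
    exact congrArg Subtype.val hxy
  let eW : R ≃ₗ[F] R := LinearEquiv.ofInjectiveEndo (e.restrict hR) hinj
  have heW : (eW : R →ₗ[F] R) = e.restrict hR := by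
    apply LinearMap.ext; intro x; rfl
  rw [charpoly_eq_mul hT]
  apply mul_dvd_mul_left
  rw [← heW, ← charpoly_dual eW hs]
  -- the pairing
  let Φ : V →ₗ[F] Dual F R := (R.subtype.dualMap).comp (LinearMap.flip B)
  have hΦ : ∀ v (w : R), Φ v w = B w v := fun v w => rfl
  have hker : T ≤ LinearMap.ker Φ := by
    intro v hv
    rw [LinearMap.mem_ker]
    apply LinearMap.ext
    intro w
    rw [hΦ]
    exact hTR hv w w.2
  have hΦs : Function.Surjective Φ := by
    have h1 : Function.Surjective (R.subtype.dualMap) :=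
      LinearMap.dualMap_surjective_of_injective R.subtype_injective
    have h2 : Function.Surjective (LinearMap.flip B) := by
      have h3 : Function.Injective (LinearMap.flip B) := by
        rw [← LinearMap.ker_eq_bot, LinearMap.ker_eq_bot']
        intro x hx
        apply hB.2
        intro y
        exact LinearMap.congr_fun hx y
      exact (LinearMap.injective_iff_surjective_of_finrank_eq_finrank
        (Subspace.dual_finrank_eq).symm).1 h3
    exact h1.comp h2
  have hΦc : ∀ v, Φ (e v) = (s • (eW.symm : R →ₗ[F] R).dualMap) (Φ v) := by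
    intro v
    apply LinearMap.ext
    intro w
    obtain ⟨w, rfl⟩ := eW.surjective w
    have h1 : Φ (e v) (eW w) = B (e w) (e v) := rfl
    rw [h1, he]
    simp only [LinearMap.smul_apply, LinearMap.dualMap_apply', LinearMap.comp_apply,
      LinearEquiv.coe_coe, LinearEquiv.symm_apply_apply, smul_eq_mul]
    rw [hΦ]
  refine charpoly_dvd_of_surjective (T.liftQ Φ hker) ?_ ?_
  · intro φ
    obtain ⟨v, rfl⟩ := hΦs φ
    exact ⟨T.mkQ v, rfl⟩
  · intro x
    obtain ⟨x, rfl⟩ := T.mkQ_surjective x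
    exact hΦc x

theorem card_filter_aux {P : ℤ[X]} (c : ℕ) {A Ω : Type} [Field A] [Algebra ℚ A]
    [Algebra.IsAlgebraic ℚ A] [IsAlgClosed A] [Field Ω] [Algebra ℚ Ω] [IsAlgClosed Ω]
    [DecidablePred fun z : A => ∃ m : ℕ, 0 < m ∧ z ^ m = (c : A) ^ m]
    [DecidablePred fun z : Ω => ∃ m : ℕ, 0 < m ∧ z ^ m = (c : Ω) ^ m] :
    ((P.aroots Ω).filter fun z => ∃ m : ℕ, 0 < m ∧ z ^ m = (c : Ω) ^ m).card =
    ((P.aroots A).filter fun z => ∃ m : ℕ, 0 < m ∧ z ^ m = (c : A) ^ m).card := by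
  let ι : A →ₐ[ℚ] Ω := IsAlgClosed.lift
  have h1 : P.aroots Ω = (P.aroots A).map ι := by
    have h2 := Polynomial.Splits.roots_map (f := P.map (algebraMap ℤ A))
      (IsAlgClosed.splits _) (ι : A →+* Ω)
    rw [Polynomial.map_map] at h2
    have h3 : ((ι : A →+* Ω).comp (algebraMap ℤ A)) = algebraMap ℤ Ω := RingHom.ext_int _ _
    rw [h3] at h2
    exact h2
  rw [h1, Multiset.filter_map, Multiset.card_map]
  congr 1
  apply Multiset.filter_congr
  intro z _
  simp only [Function.comp_apply]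
  constructor
  · rintro ⟨m, hm, h⟩
    refine ⟨m, hm, (ι : A →+* Ω).injective ?_⟩
    simpa using h
  · rintro ⟨m, hm, h⟩
    refine ⟨m, hm, ?_⟩
    have := congrArg ι h
    simpa using this

/-- the number of roots of the form `c` times a root of unity does not depend on the field -/
theorem card_filter_eq {P : ℤ[X]} (c : ℕ) {Ω : Type} [Field Ω] [Algebra ℚ Ω] [IsAlgClosed Ω]
    [DecidablePred fun z : ℂ => ∃ m : ℕ, 0 < m ∧ z ^ m = (c : ℂ) ^ m]
    [DecidablePred fun z : Ω => ∃ m : ℕ, 0 < m ∧ z ^ m = (c : Ω) ^ m] :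
    ((P.aroots ℂ).filter fun z => ∃ m : ℕ, 0 < m ∧ z ^ m = (c : ℂ) ^ m).card =
    ((P.aroots Ω).filter fun z => ∃ m : ℕ, 0 < m ∧ z ^ m = (c : Ω) ^ m).card := by
  classical
  obtain ⟨A, _, _, _, _⟩ : ∃ (A : Type) (_ : Field A) (_ : Algebra ℚ A),
      Algebra.IsAlgebraic ℚ A ∧ IsAlgClosed A :=
    ⟨AlgebraicClosure ℚ, inferInstance, AlgebraicClosure.instAlgebra ℚ,
      AlgebraicClosure.isAlgebraic ℚ, inferInstance⟩
  exact (card_filter_aux (A := A) (Ω := ℂ) c).trans (card_filter_aux (A := A) (Ω := Ω) c).symm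

end Pool.Agent.H849.K3
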